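import Pool.Agent.Helper40.MC.Defs

/-!
The graph of a list of gadgets and its matching cuts (file by helper59, first handed in as
`MatchingCutSat`).
-/

open SimpleGraph

namespace Pool.Agent.Helper40.MC.Core

/-- A literal in `n` variables: a variable together with a sign (`true` for the variable itself,
`false` for its negation). -/
abbrev Lit (n : ℕ) := Fin n × Bool

/-- A 3-CNF formula in `n` variables: a list of clauses, each of them a triple of literals. -/
abbrev Formula (n : ℕ) := List (Fin 3 → Lit n)

/-- Satisfiability of a 3-CNF formula. -/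
def Satisfiable {n : ℕ} (φ : Formula n) : Prop :=
  ∃ a : Fin n → Bool, ∀ c ∈ φ, ∃ i, a (c i).1 = (c i).2

/-- The opposite literal. -/
def Lit.neg {n : ℕ} (l : Lit n) : Lit n := (l.1, !l.2)

/-- The blobs: one for each truth value and one for each literal. -/
abbrev Blob (n : ℕ) := Bool ⊕ Lit n

/-- The list of gadgets of a formula; a gadget is given by four blobs. -/
def gadgets {n : ℕ} (φ : Formula n) : List (Fin 4 → Blob n) :=
  ([Sum.inl true, Sum.inl false] ++ (List.finRange n).flatMap fun v =>
      [Sum.inr (v, true), Sum.inr (v, false)]).map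
    (fun X => ![Sum.inl true, Sum.inl false, X, X]) ++
  (List.finRange n).flatMap (fun v =>
    [![Sum.inr (v, true), Sum.inr (v, false), Sum.inl false, Sum.inl false],
     ![Sum.inr (v, true), Sum.inr (v, false), Sum.inl true, Sum.inl true]]) ++
  φ.map (fun c => ![Sum.inr (Lit.neg (c 0)), Sum.inr (Lit.neg (c 1)), Sum.inr (c 2), Sum.inl false])

/-- The vertices of the graph built from a list of `k` gadgets on blobs indexed by `B`: each blob
`X` consists of the vertices `main X s` (`s < 4 k`) and `apex X s` (`s + 1 < 4 k`), the gadget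
`j < k` of the three vertices `gad j 0`, `gad j 1`, `gad j 2`. -/
inductive Vert (B : Type) (k : ℕ)
  | main (X : B) (s : Fin (4 * k))
  | apex (X : B) (s : Fin (4 * k - 1))
  | gad (j : Fin k) (i : Fin 3)
  deriving DecidableEq

open Vert

/-- The edges (in one direction). The vertices `main X s`, `main X (s + 1)`, `apex X s` form a
triangle, so do the three vertices of a gadget; the vertex `gad j i` (`i = 0, 1`) is adjacent to
the vertices with indices `4 j + 2 i` and `4 j + 2 i + 1` of the blobs prescribed by the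
gadget. -/
def edgeRel {B : Type} (L : List (Fin 4 → B)) : Vert B L.length → Vert B L.length → Prop
  | main X s, main Y t => X = Y ∧ t.val = s.val + 1
  | apex X s, main Y t => X = Y ∧ (t.val = s.val ∨ t.val = s.val + 1)
  | gad j _, gad j' _ => j = j'
  | gad j i, main Y t => ∃ r : Fin 4, t.val = 4 * j.val + r.val ∧ r.val / 2 = i.val ∧ L.get j r = Y
  | _, _ => False

/-- The graph built from a list of gadgets. -/
def gadgetGraph {B : Type} (L : List (Fin 4 → B)) : SimpleGraph (Vert B L.length) :=
  SimpleGraph.fromRel (edgeRel L)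

/-- The graph built from a 3-CNF formula. -/
def satGraph {n : ℕ} (φ : Formula n) : SimpleGraph (Vert (Blob n) (gadgets φ).length) :=
  gadgetGraph (gadgets φ)

/-! ### Freeness of `S_{2,2,2,2}` -/

theorem free_of_cls {V : Type} (G : SimpleGraph V)
    (h : ∀ x, ∃ cls : V → Fin 3, ∀ y z, G.Adj x y → G.Adj x z → y ≠ z → cls y = cls z →
      (∀ w, G.Adj y w → w = x ∨ w = z) ∨ (∀ w, G.Adj z w → w = x ∨ w = y)) :
    S2222.Free G := by
  rintro ⟨f⟩
  have hinj := f.injective'
  have hc : ∀ i : Fin 4, S2222.Adj none (some (i, false)) := by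
    intro i
    rw [S2222, SimpleGraph.fromRel_adj]
    exact ⟨by simp, Or.inl (Or.inl ⟨rfl, i, rfl⟩)⟩
  have hl : ∀ i : Fin 4, S2222.Adj (some (i, false)) (some (i, true)) := by
    intro i
    rw [S2222, SimpleGraph.fromRel_adj]
    exact ⟨by simp, Or.inl (Or.inr ⟨i, rfl, rfl⟩)⟩
  obtain ⟨cls, hcls⟩ := h (f.toHom none)
  obtain ⟨i, j, hij, hij'⟩ := Fintype.exists_ne_map_eq_of_card_lt
    (fun i : Fin 4 => cls (f.toHom (some (i, false)))) (by simp)
  have h1 := hcls _ _ (f.toHom.map_adj (hc i)) (f.toHom.map_adj (hc j))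
    (fun he => hij (by simpa using hinj he)) hij'
  rcases h1 with h1 | h1
  · rcases h1 _ (f.toHom.map_adj (hl i)) with h2 | h2
    · simpa using hinj h2
    · simpa using hinj h2
  · rcases h1 _ (f.toHom.map_adj (hl j)) with h2 | h2
    · simpa using hinj h2
    · simpa using hinj h2

section adj

variable {B : Type} {L : List (Fin 4 → B)}

theorem adj_main_main {X Y : B} {s t : Fin (4 * L.length)} :
    (gadgetGraph L).Adj (main X s) (main Y t) ↔ X = Y ∧ (t.val = s.val + 1 ∨ s.val = t.val + 1) := by
  rw [gadgetGraph, SimpleGraph.fromRel_adj]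
  simp only [edgeRel, ne_eq, main.injEq, not_and]
  constructor
  · rintro ⟨-, ⟨h1, h2⟩ | ⟨h1, h2⟩⟩
    · exact ⟨h1, Or.inl h2⟩
    · exact ⟨h1.symm, Or.inr h2⟩
  · rintro ⟨rfl, h | h⟩
    · refine ⟨fun _ he => ?_, Or.inl ⟨rfl, h⟩⟩
      rw [he] at h; omega
    · refine ⟨fun _ he => ?_, Or.inr ⟨rfl, h⟩⟩
      rw [he] at h; omega

theorem adj_apex_main {X Y : B} {s : Fin (4 * L.length - 1)} {t : Fin (4 * L.length)} :
    (gadgetGraph L).Adj (apex X s) (main Y t) ↔ X = Y ∧ (t.val = s.val ∨ t.val = s.val + 1) := by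
  rw [gadgetGraph, SimpleGraph.fromRel_adj]
  simp [edgeRel]

theorem not_adj_apex_apex {X Y : B} {s t : Fin (4 * L.length - 1)} :
    ¬ (gadgetGraph L).Adj (apex X s) (apex Y t) := by
  rw [gadgetGraph, SimpleGraph.fromRel_adj]
  simp [edgeRel]

theorem not_adj_gad_apex {Y : B} {t : Fin (4 * L.length - 1)} {j : Fin L.length} {i : Fin 3} :
    ¬ (gadgetGraph L).Adj (gad j i) (apex Y t) := by
  rw [gadgetGraph, SimpleGraph.fromRel_adj]
  simp [edgeRel]

theorem adj_gad_gad {j j' : Fin L.length} {i i' : Fin 3} :
    (gadgetGraph L).Adj (gad j i) (gad j' i') ↔ j = j' ∧ i ≠ i' := by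
  rw [gadgetGraph, SimpleGraph.fromRel_adj]
  simp only [edgeRel, ne_eq, gad.injEq, not_and]
  constructor
  · rintro ⟨h1, h2 | h2⟩
    · exact ⟨h2, h1 h2⟩
    · exact ⟨h2.symm, h1 h2.symm⟩
  · rintro ⟨rfl, h⟩
    exact ⟨fun _ => h, Or.inl rfl⟩

theorem adj_gad_main {j : Fin L.length} {i : Fin 3} {Y : B} {t : Fin (4 * L.length)} :
    (gadgetGraph L).Adj (gad j i) (main Y t) ↔
      ∃ r : Fin 4, t.val = 4 * j.val + r.val ∧ r.val / 2 = i.val ∧ L.get j r = Y := by
  rw [gadgetGraph, SimpleGraph.fromRel_adj]
  simp [edgeRel]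

end adj

theorem gadgetGraph_free {B : Type} (L : List (Fin 4 → B)) : S2222.Free (gadgetGraph L) := by
  classical
  apply free_of_cls
  intro x
  rcases x with ⟨X, s⟩ | ⟨X, s⟩ | ⟨j, i⟩
  · -- centre in a blob
    refine ⟨fun y => match y with
      | main _ t => if t.val < s.val then 0 else 1
      | apex _ t => if t.val < s.val then 0 else 1
      | gad _ _ => 2, ?_⟩
    rintro (⟨Y, t⟩ | ⟨Y, t⟩ | ⟨j, i⟩) (⟨Z, u⟩ | ⟨Z, u⟩ | ⟨j', i'⟩) h1 h2 hne hcls
    · exfalso
      rw [adj_main_main] at h1 h2
      obtain ⟨rfl, h1⟩ := h1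
      obtain ⟨rfl, h2⟩ := h2
      apply hne
      have : t.val = u.val := by
        simp only at hcls
        split_ifs at hcls with h3 h4 h4 <;> omega
      rw [Fin.ext this]
    · right
      rw [adj_main_main] at h1
      rw [SimpleGraph.adj_comm, adj_apex_main] at h2
      obtain ⟨rfl, h1⟩ := h1
      obtain ⟨rfl, h2⟩ := h2
      simp only at hcls
      rintro (⟨W, w⟩ | ⟨W, w⟩ | ⟨j, i⟩) hw
      · rw [adj_apex_main] at hw
        obtain ⟨rfl, hw⟩ := hw
        have : w.val = s.val ∨ w.val = t.val := by
          split_ifs at hcls with h3 h4 h4 <;> omega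
        rcases this with h | h
        · left; rw [Fin.ext h]
        · right; rw [Fin.ext h]
      · exact absurd hw not_adj_apex_apex
      · rw [SimpleGraph.adj_comm] at hw; exact absurd hw not_adj_gad_apex
    · simp only at hcls
      split_ifs at hcls <;> simp at hcls
    · left
      rw [adj_main_main] at h2
      rw [SimpleGraph.adj_comm, adj_apex_main] at h1
      obtain ⟨rfl, h1⟩ := h1
      obtain ⟨rfl, h2⟩ := h2
      simp only at hcls
      rintro (⟨W, w⟩ | ⟨W, w⟩ | ⟨j, i⟩) hw
      · rw [adj_apex_main] at hw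
        obtain ⟨rfl, hw⟩ := hw
        have : w.val = s.val ∨ w.val = u.val := by
          split_ifs at hcls with h3 h4 h4 <;> omega
        rcases this with h | h
        · left; rw [Fin.ext h]
        · right; rw [Fin.ext h]
      · exact absurd hw not_adj_apex_apex
      · rw [SimpleGraph.adj_comm] at hw; exact absurd hw not_adj_gad_apex
    · exfalso
      rw [SimpleGraph.adj_comm, adj_apex_main] at h1 h2
      obtain ⟨rfl, h1⟩ := h1
      obtain ⟨rfl, h2⟩ := h2
      apply hne
      have : t.val = u.val := by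
        simp only at hcls
        split_ifs at hcls with h3 h4 h4 <;> omega
      rw [Fin.ext this]
    · simp only at hcls
      split_ifs at hcls <;> simp at hcls
    · simp only at hcls
      split_ifs at hcls <;> simp at hcls
    · simp only at hcls
      split_ifs at hcls <;> simp at hcls
    · exfalso
      rw [SimpleGraph.adj_comm, adj_gad_main] at h1 h2
      obtain ⟨r, hr1, hr2, hr3⟩ := h1
      obtain ⟨r', hr1', hr2', hr3'⟩ := h2
      apply hne
      have e1 : j.val = j'.val := by omega
      have e2 : i.val = i'.val := by omega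
      rw [Fin.ext e1, Fin.ext e2]
  · -- centre an apex
    refine ⟨fun y => match y with
      | main _ t => if t.val = s.val then 0 else 1
      | apex _ _ => 0
      | gad _ _ => 2, ?_⟩
    rintro (⟨Y, t⟩ | ⟨Y, t⟩ | ⟨j, i⟩) (⟨Z, u⟩ | ⟨Z, u⟩ | ⟨j', i'⟩) h1 h2 hne hcls
    · exfalso
      rw [adj_apex_main] at h1 h2
      obtain ⟨rfl, h1⟩ := h1
      obtain ⟨rfl, h2⟩ := h2
      apply hne
      have : t.val = u.val := by
        simp only at hcls
        split_ifs at hcls with h3 h4 h4 <;> omega
      rw [Fin.ext this]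
    all_goals first
      | exact absurd h1 not_adj_apex_apex
      | exact absurd h2 not_adj_apex_apex
      | exact absurd h1.symm not_adj_gad_apex
      | exact absurd h2.symm not_adj_gad_apex
  · -- centre in a gadget
    by_cases hi : i = 2
    · subst hi
      refine ⟨fun y => match y with
        | main _ _ => 0
        | apex _ _ => 0
        | gad _ i' => i', ?_⟩
      rintro (⟨Y, t⟩ | ⟨Y, t⟩ | ⟨j', i⟩) (⟨Z, u⟩ | ⟨Z, u⟩ | ⟨j'', i'⟩) h1 h2 hne hcls
      all_goals first
        | exact absurd h1 not_adj_gad_apex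
        | exact absurd h2 not_adj_gad_apex
        | (exfalso; rw [adj_gad_main] at h1; obtain ⟨r, -, hr, -⟩ := h1;
           have := r.2; simp at hr; omega)
        | (exfalso; rw [adj_gad_main] at h2; obtain ⟨r, -, hr, -⟩ := h2;
           have := r.2; simp at hr; omega)
        | skip
      exfalso
      rw [adj_gad_gad] at h1 h2
      apply hne
      simp only at hcls
      rw [← h1.1, ← h2.1, hcls]
    · refine ⟨fun y => match y with
        | main _ t => if t.val % 2 = 0 then 1 else 2
        | apex _ _ => 0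
        | gad _ _ => 0, ?_⟩
      rintro (⟨Y, t⟩ | ⟨Y, t⟩ | ⟨j', i₁⟩) (⟨Z, u⟩ | ⟨Z, u⟩ | ⟨j'', i₂⟩) h1 h2 hne hcls
      · exfalso
        rw [adj_gad_main] at h1 h2
        obtain ⟨r, hr1, hr2, hr3⟩ := h1
        obtain ⟨r', hr1', hr2', hr3'⟩ := h2
        apply hne
        have e1 : r.val = r'.val := by
          simp only at hcls
          split_ifs at hcls with h3 h4 h4 <;> omega
        have e2 : t.val = u.val := by omega
        rw [Fin.ext e2, ← hr3, ← hr3', Fin.ext e1]
      · exact absurd h2 not_adj_gad_apex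
      · simp only at hcls
        split_ifs at hcls <;> simp at hcls
      · exact absurd h1 not_adj_gad_apex
      · exact absurd h1 not_adj_gad_apex
      · exact absurd h1 not_adj_gad_apex
      · simp only at hcls
        split_ifs at hcls <;> simp at hcls
      · exact absurd h2 not_adj_gad_apex
      · rw [adj_gad_gad] at h1 h2
        obtain ⟨rfl, h1⟩ := h1
        obtain ⟨rfl, h2⟩ := h2
        have hcase : (i₁ = 2 ∧ ∀ a : Fin 3, a ≠ i₁ → a = i ∨ a = i₂) ∨
            (i₂ = 2 ∧ ∀ a : Fin 3, a ≠ i₂ → a = i ∨ a = i₁) := by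
          have hne' : i₁ ≠ i₂ := fun he => hne (by rw [he])
          clear hne hcls
          revert hi h1 h2 hne'
          revert i i₁ i₂
          decide
        rcases hcase with ⟨rfl, h⟩ | ⟨rfl, h⟩
        · left
          rintro (⟨W, w⟩ | ⟨W, w⟩ | ⟨j', i'⟩) hw
          · exfalso
            rw [adj_gad_main] at hw
            obtain ⟨r, -, hr, -⟩ := hw
            have := r.2
            simp at hr
            omega
          · exact absurd hw not_adj_gad_apex
          · rw [adj_gad_gad] at hw
            obtain ⟨rfl, hw⟩ := hw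
            rcases h i' (Ne.symm hw) with rfl | rfl
            · left; rfl
            · right; rfl
        · right
          rintro (⟨W, w⟩ | ⟨W, w⟩ | ⟨j', i'⟩) hw
          · exfalso
            rw [adj_gad_main] at hw
            obtain ⟨r, -, hr, -⟩ := hw
            have := r.2
            simp at hr
            omega
          · exact absurd hw not_adj_gad_apex
          · rw [adj_gad_gad] at hw
            obtain ⟨rfl, hw⟩ := hw
            rcases h i' (Ne.symm hw) with rfl | rfl
            · left; rfl
            · right; rfl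

/-! ### Degrees and number of vertices -/

theorem degree_le {B : Type} (L : List (Fin 4 → B)) (v : Vert B L.length) :
    ((gadgetGraph L).neighborSet v).Finite ∧ ((gadgetGraph L).neighborSet v).ncard ≤ 5 := by
  classical
  have key : ∃ code : Vert B L.length → Fin 5, Set.InjOn code ((gadgetGraph L).neighborSet v) := by
    rcases v with ⟨X, s⟩ | ⟨X, s⟩ | ⟨j, i⟩
    · refine ⟨fun y => match y with
        | main _ t => if t.val < s.val then 0 else 1
        | apex _ t => if t.val < s.val then 2 else 3
        | gad _ _ => 4, ?_⟩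
      rintro (⟨Y, t⟩ | ⟨Y, t⟩ | ⟨j, i⟩) h1 (⟨Z, u⟩ | ⟨Z, u⟩ | ⟨j', i'⟩) h2 hcls <;>
        rw [SimpleGraph.mem_neighborSet] at h1 h2 <;> simp only at hcls
      · rw [adj_main_main] at h1 h2
        obtain ⟨rfl, h1⟩ := h1
        obtain ⟨rfl, h2⟩ := h2
        have : t.val = u.val := by
          split_ifs at hcls with h3 h4 h4 <;> omega
        rw [Fin.ext this]
      · split_ifs at hcls <;> simp at hcls
      · split_ifs at hcls <;> simp at hcls
      · split_ifs at hcls <;> simp at hcls
      · rw [SimpleGraph.adj_comm, adj_apex_main] at h1 h2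
        obtain ⟨rfl, h1⟩ := h1
        obtain ⟨rfl, h2⟩ := h2
        have : t.val = u.val := by
          split_ifs at hcls with h3 h4 h4 <;> omega
        rw [Fin.ext this]
      · split_ifs at hcls <;> simp at hcls
      · split_ifs at hcls <;> simp at hcls
      · split_ifs at hcls <;> simp at hcls
      · rw [SimpleGraph.adj_comm, adj_gad_main] at h1 h2
        obtain ⟨r, hr1, hr2, hr3⟩ := h1
        obtain ⟨r', hr1', hr2', hr3'⟩ := h2
        have e1 : j.val = j'.val := by omega
        have e2 : i.val = i'.val := by omega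
        rw [Fin.ext e1, Fin.ext e2]
    · refine ⟨fun y => match y with
        | main _ t => if t.val = s.val then 0 else 1
        | apex _ _ => 2
        | gad _ _ => 3, ?_⟩
      rintro (⟨Y, t⟩ | ⟨Y, t⟩ | ⟨j, i⟩) h1 (⟨Z, u⟩ | ⟨Z, u⟩ | ⟨j', i'⟩) h2 hcls <;>
        rw [SimpleGraph.mem_neighborSet] at h1 h2 <;> simp only at hcls
      · rw [adj_apex_main] at h1 h2
        obtain ⟨rfl, h1⟩ := h1
        obtain ⟨rfl, h2⟩ := h2
        have : t.val = u.val := by
          split_ifs at hcls with h3 h4 h4 <;> omega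
        rw [Fin.ext this]
      all_goals first
        | exact absurd h1 not_adj_apex_apex
        | exact absurd h2 not_adj_apex_apex
        | exact absurd h1.symm not_adj_gad_apex
        | exact absurd h2.symm not_adj_gad_apex
    · refine ⟨fun y => match y with
        | main _ t => if t.val % 2 = 0 then 3 else 4
        | apex _ _ => 0
        | gad _ i' => if i' = 0 then 0 else if i' = 1 then 1 else 2, ?_⟩
      rintro (⟨Y, t⟩ | ⟨Y, t⟩ | ⟨j', i₁⟩) h1 (⟨Z, u⟩ | ⟨Z, u⟩ | ⟨j'', i₂⟩) h2 hcls <;>
        rw [SimpleGraph.mem_neighborSet] at h1 h2 <;> simp only at hcls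
      · rw [adj_gad_main] at h1 h2
        obtain ⟨r, hr1, hr2, hr3⟩ := h1
        obtain ⟨r', hr1', hr2', hr3'⟩ := h2
        have e1 : r.val = r'.val := by
          split_ifs at hcls with h3 h4 h4 <;> omega
        have e2 : t.val = u.val := by omega
        rw [Fin.ext e2, ← hr3, ← hr3', Fin.ext e1]
      · exact absurd h2 not_adj_gad_apex
      · split_ifs at hcls <;> simp at hcls
      · exact absurd h1 not_adj_gad_apex
      · exact absurd h1 not_adj_gad_apex
      · exact absurd h1 not_adj_gad_apex
      · split_ifs at hcls <;> simp at hcls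
      · exact absurd h2 not_adj_gad_apex
      · rw [adj_gad_gad] at h1 h2
        obtain ⟨rfl, h1⟩ := h1
        obtain ⟨rfl, h2⟩ := h2
        have : i₁ = i₂ := by
          revert hcls
          clear h1 h2
          revert i₁ i₂
          decide
        rw [this]
  obtain ⟨code, hcode⟩ := key
  refine ⟨Set.Finite.of_injOn (fun _ _ => Set.mem_univ _) hcode Set.finite_univ, ?_⟩
  have := Set.ncard_le_ncard_of_injOn (t := (Set.univ : Set (Fin 5))) code
    (fun _ _ => Set.mem_univ _) hcode Set.finite_univ
  simpa [Set.ncard_univ] using this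

/-- The vertices as a sum type. -/
def vertEquiv (B : Type) (k : ℕ) :
    Vert B k ≃ (B × Fin (4 * k)) ⊕ (B × Fin (4 * k - 1)) ⊕ (Fin k × Fin 3) where
  toFun v := match v with
    | main X s => Sum.inl (X, s)
    | apex X s => Sum.inr (Sum.inl (X, s))
    | gad j i => Sum.inr (Sum.inr (j, i))
  invFun v := match v with
    | Sum.inl (X, s) => main X s
    | Sum.inr (Sum.inl (X, s)) => apex X s
    | Sum.inr (Sum.inr (j, i)) => gad j i
  left_inv v := by rcases v with _ | _ | _ <;> rfl
  right_inv v := by rcases v with _ | _ | _ <;> rfl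

theorem gadgets_length {n : ℕ} (φ : Formula n) :
    (gadgets φ).length = 4 * n + 2 + φ.length := by
  simp [gadgets, List.length_flatMap]
  omega

theorem card_vert {n : ℕ} (φ : Formula n) :
    Finite (Vert (Blob n) (gadgets φ).length) ∧
    Nat.card (Vert (Blob n) (gadgets φ).length) ≤ (16 * n + 19) * (4 * n + 2 + φ.length) := by
  set k := (gadgets φ).length with hk
  have hk' : k = 4 * n + 2 + φ.length := gadgets_length φ
  refine ⟨Finite.of_equiv _ (vertEquiv (Blob n) k).symm, ?_⟩
  rw [Nat.card_congr (vertEquiv (Blob n) k)]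
  simp only [Nat.card_sum, Nat.card_prod, Nat.card_eq_fintype_card, Fintype.card_fin,
    Fintype.card_bool, Fintype.card_sum, Fintype.card_prod]
  rw [← hk']
  have : (2 + n * 2) * (4 * k - 1) ≤ (2 + n * 2) * (4 * k) := Nat.mul_le_mul_left _ (by omega)
  nlinarith

/-! ### Matching cuts and colourings -/

/-- validity of a colouring of the blobs -/
def Valid {B : Type} (L : List (Fin 4 → B)) (c : B → Bool) : Prop :=
  ∀ g ∈ L, ∃ b : Bool, (b = c (g 0) ∨ b = c (g 1)) ∧ (b = c (g 2) ∨ b = c (g 3))

theorem cut_iff {B : Type} (L : List (Fin 4 → B)) (hL : L ≠ []) :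
    HasMatchingCut (gadgetGraph L) ↔ ∃ c : B → Bool, (∃ X Y, c X ≠ c Y) ∧ Valid L c := by
  classical
  have hk : 0 < L.length := List.length_pos_iff.2 hL
  have hk4 : 0 < 4 * L.length := by omega
  constructor
  · rintro ⟨A, hA1, hA2, hA⟩
    -- triangles are monochromatic
    have htri : ∀ x y z, (gadgetGraph L).Adj x y → (gadgetGraph L).Adj y z →
        (gadgetGraph L).Adj x z → (x ∈ A ↔ y ∈ A) := by
      intro x y z hxy hyz hxz
      by_contra h
      by_cases hz : x ∈ A ↔ z ∈ A
      · have := hA y x z hxy.symm hyz (fun h' => h h'.symm) (fun h' => h (hz.trans h'.symm))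
        exact hxz.ne this
      · have := hA x y z hxy hxz h hz
        exact hyz.ne this
    have hstep : ∀ (X : B) (s t : Fin (4 * L.length)), t.val = s.val + 1 →
        (main X s ∈ A ↔ main X t ∈ A) := by
      intro X s t hst
      have ht := t.2
      refine htri _ _ (apex X ⟨s.val, by omega⟩) ?_ ?_ ?_
      · rw [adj_main_main]; exact ⟨rfl, Or.inl hst⟩
      · rw [SimpleGraph.adj_comm, adj_apex_main]; exact ⟨rfl, Or.inr hst⟩
      · rw [SimpleGraph.adj_comm, adj_apex_main]; exact ⟨rfl, Or.inl rfl⟩
    have hmono : ∀ (X : B) (s : ℕ) (hs : s < 4 * L.length),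
        (main X ⟨s, hs⟩ ∈ A ↔ main X ⟨0, hk4⟩ ∈ A) := by
      intro X s
      induction s with
      | zero => intro _; rfl
      | succ s ih =>
        intro hs
        rw [← ih (by omega)]
        exact (hstep X ⟨s, by omega⟩ ⟨s + 1, hs⟩ rfl).symm
    have hmain : ∀ (X : B) (s : Fin (4 * L.length)), (main X s ∈ A ↔ main X ⟨0, hk4⟩ ∈ A) :=
      fun X s => hmono X s.1 s.2
    have hapex : ∀ (X : B) (s : Fin (4 * L.length - 1)),
        (apex X s ∈ A ↔ main X ⟨0, hk4⟩ ∈ A) := by
      intro X s
      have hs := s.2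
      rw [← hmain X ⟨s.val, by omega⟩]
      refine htri _ _ (main X ⟨s.val + 1, by omega⟩) ?_ ?_ ?_
      · rw [adj_apex_main]; exact ⟨rfl, Or.inl rfl⟩
      · rw [adj_main_main]; exact ⟨rfl, Or.inl rfl⟩
      · rw [adj_apex_main]; exact ⟨rfl, Or.inr rfl⟩
    have hgad : ∀ (j : Fin L.length) (i : Fin 3), (gad (B := B) j i ∈ A ↔ gad j 0 ∈ A) := by
      intro j i
      by_cases hi : i = 0
      · rw [hi]
      · obtain ⟨i', hi', hi''⟩ : ∃ i' : Fin 3, i ≠ i' ∧ (0 : Fin 3) ≠ i' := by
          revert hi; revert i; decide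
        refine htri _ _ (gad j i') ?_ ?_ ?_
        · rw [adj_gad_gad]; exact ⟨rfl, hi⟩
        · rw [adj_gad_gad]; exact ⟨rfl, hi''⟩
        · rw [adj_gad_gad]; exact ⟨rfl, hi'⟩
    -- the constraint at a gadget vertex
    have hcon : ∀ (j : Fin L.length) (i : Fin 3) (r r' : Fin 4), r ≠ r' → r.val / 2 = i.val →
        r'.val / 2 = i.val → (gad (B := B) j 0 ∈ A ↔ main (L.get j r) ⟨0, hk4⟩ ∈ A) ∨
        (gad (B := B) j 0 ∈ A ↔ main (L.get j r') ⟨0, hk4⟩ ∈ A) := by
      intro j i r r' hrr hr hr'
      by_contra hcon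
      push Not at hcon
      have hj := j.2
      have hr4 := r.2
      have hr4' := r'.2
      have h1 := hA (gad j i) (main (L.get j r) ⟨4 * j.val + r.val, by omega⟩)
        (main (L.get j r') ⟨4 * j.val + r'.val, by omega⟩)
        (adj_gad_main.2 ⟨r, rfl, hr, rfl⟩) (adj_gad_main.2 ⟨r', rfl, hr', rfl⟩)
        (by rw [hgad, hmain]; tauto) (by rw [hgad, hmain]; tauto)
      simp only [main.injEq, Fin.mk.injEq] at h1
      exact hrr (Fin.ext (by omega))
    refine ⟨fun X => decide (main X ⟨0, hk4⟩ ∈ A), ?_, ?_⟩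
    · -- not constant
      by_contra hconst
      push Not at hconst
      simp only [decide_eq_decide] at hconst
      have hall : ∀ v w : Vert B L.length, v ∈ A → w ∈ A := by
        have hto : ∀ v : Vert B L.length, ∃ X, (v ∈ A ↔ main X ⟨0, hk4⟩ ∈ A) := by
          rintro (⟨X, s⟩ | ⟨X, s⟩ | ⟨j, i⟩)
          · exact ⟨X, hmain X s⟩
          · exact ⟨X, hapex X s⟩
          · rcases hcon j 0 0 1 (by decide) (by simp) (by simp) with h | h
            · exact ⟨_, (hgad j i).trans h⟩
            · exact ⟨_, (hgad j i).trans h⟩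
        intro v w hv
        obtain ⟨X, hX⟩ := hto v
        obtain ⟨Y, hY⟩ := hto w
        rw [hY, ← hconst X Y, ← hX]
        exact hv
      obtain ⟨v, hv⟩ := hA1
      obtain ⟨w, hw⟩ := hA2
      exact hw (hall v w hv)
    · intro g hg
      obtain ⟨j, rfl⟩ := List.mem_iff_get.1 hg
      refine ⟨decide (gad (B := B) j 0 ∈ A), ?_, ?_⟩
      · simp only [decide_eq_decide]
        exact hcon j 0 0 1 (by decide) (by simp) (by simp)
      · simp only [decide_eq_decide]
        exact hcon j 1 2 3 (by decide) (by simp) (by simp)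
  · rintro ⟨c, ⟨X, Y, hXY⟩, hval⟩
    choose b hb1 hb2 using fun j : Fin L.length => hval (L.get j) (List.get_mem L j)
    let col : Vert B L.length → Bool := fun v => match v with
      | main X _ => c X
      | apex X _ => c X
      | gad j _ => b j
    have hmem : ∀ v w, ¬ (v ∈ {v | col v = true} ↔ w ∈ {v | col v = true}) → col v ≠ col w := by
      intro v w h he
      apply h
      simp [he]
    refine ⟨{v | col v = true}, ?_, ?_, ?_⟩
    · rcases hX : c X with _ | _
      · refine ⟨main Y ⟨0, hk4⟩, ?_⟩
        show c Y = true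
        rw [hX] at hXY
        rcases hY : c Y with _ | _
        · exact absurd hY.symm hXY
        · rfl
      · exact ⟨main X ⟨0, hk4⟩, hX⟩
    · rcases hX : c X with _ | _
      · refine ⟨main X ⟨0, hk4⟩, ?_⟩
        show ¬ c X = true
        simp [hX]
      · refine ⟨main Y ⟨0, hk4⟩, ?_⟩
        show ¬ c Y = true
        rw [hX] at hXY
        exact fun h => hXY h.symm
    · intro v w₁ w₂ h1 h2 hd1 hd2
      have hd1 := hmem _ _ hd1
      have hd2 := hmem _ _ hd2
      rcases v with ⟨Z, s⟩ | ⟨Z, s⟩ | ⟨j, i⟩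
      · rcases w₁ with ⟨Z₁, s₁⟩ | ⟨Z₁, s₁⟩ | ⟨j₁, i₁⟩
        · rw [adj_main_main] at h1
          exact absurd (by rw [h1.1]) hd1
        · rw [SimpleGraph.adj_comm, adj_apex_main] at h1
          exact absurd (by rw [h1.1]) hd1
        · rcases w₂ with ⟨Z₂, s₂⟩ | ⟨Z₂, s₂⟩ | ⟨j₂, i₂⟩
          · rw [adj_main_main] at h2
            exact absurd (by rw [h2.1]) hd2
          · rw [SimpleGraph.adj_comm, adj_apex_main] at h2
            exact absurd (by rw [h2.1]) hd2
          · rw [SimpleGraph.adj_comm, adj_gad_main] at h1 h2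
            obtain ⟨r, hr1, hr2, hr3⟩ := h1
            obtain ⟨r', hr1', hr2', hr3'⟩ := h2
            have e1 : j₁.val = j₂.val := by omega
            have e2 : i₁.val = i₂.val := by omega
            rw [Fin.ext e1, Fin.ext e2]
      · rcases w₁ with ⟨Z₁, s₁⟩ | ⟨Z₁, s₁⟩ | ⟨j₁, i₁⟩
        · rw [adj_apex_main] at h1
          exact absurd (by rw [h1.1]) hd1
        · exact absurd h1 not_adj_apex_apex
        · exact absurd h1.symm not_adj_gad_apex
      · rcases w₁ with ⟨Z₁, s₁⟩ | ⟨Z₁, s₁⟩ | ⟨j₁, i₁⟩
        · rcases w₂ with ⟨Z₂, s₂⟩ | ⟨Z₂, s₂⟩ | ⟨j₂, i₂⟩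
          · rw [adj_gad_main] at h1 h2
            obtain ⟨r, hr1, hr2, hr3⟩ := h1
            obtain ⟨r', hr1', hr2', hr3'⟩ := h2
            have hd1' : b j ≠ c (L.get j r) := by rw [hr3]; exact hd1
            have hd2' : b j ≠ c (L.get j r') := by rw [hr3']; exact hd2
            have hb1j := hb1 j
            have hb2j := hb2 j
            have hrr : r = r' := by
              by_contra hne
              fin_cases r <;> fin_cases r' <;> simp at hr2 hr2' hne hd1' hd2' <;>
                first
                  | omega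
                  | (rcases hb1j with h | h <;> simp_all)
            subst hrr
            have e2 : s₁.val = s₂.val := by omega
            rw [Fin.ext e2, ← hr3, ← hr3']
          · exact absurd h2 not_adj_gad_apex
          · rw [adj_gad_gad] at h2
            exact absurd (by rw [h2.1]) hd2
        · exact absurd h1 not_adj_gad_apex
        · rw [adj_gad_gad] at h1
          exact absurd (by rw [h1.1]) hd1

/-! ### The colourings and satisfiability -/

theorem valid_gadgets {n : ℕ} (φ : Formula n) (c : Blob n → Bool) :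
    Valid (gadgets φ) c ↔
      (∀ X : Blob n, ∃ b, (b = c (Sum.inl true) ∨ b = c (Sum.inl false)) ∧ b = c X) ∧
      (∀ v : Fin n, (∃ b, (b = c (Sum.inr (v, true)) ∨ b = c (Sum.inr (v, false))) ∧
          b = c (Sum.inl false)) ∧
        (∃ b, (b = c (Sum.inr (v, true)) ∨ b = c (Sum.inr (v, false))) ∧
          b = c (Sum.inl true))) ∧
      (∀ cl ∈ φ, ∃ b, (b = c (Sum.inr (Lit.neg (cl 0))) ∨ b = c (Sum.inr (Lit.neg (cl 1)))) ∧
        (b = c (Sum.inr (cl 2)) ∨ b = c (Sum.inl false))) := by
  unfold Valid gadgets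
  rw [List.forall_mem_append, List.forall_mem_append, and_assoc]
  refine and_congr ?_ (and_congr ?_ ?_)
  · rw [List.forall_mem_map]
    constructor
    · intro h X
      have hX : X ∈ [Sum.inl true, Sum.inl false] ++ (List.finRange n).flatMap fun v =>
          [Sum.inr (v, true), Sum.inr (v, false)] := by
        rcases X with b | ⟨v, b⟩
        · rcases b with _ | _ <;> simp
        · simp only [List.mem_append, List.mem_flatMap]
          right
          refine ⟨v, List.mem_finRange v, ?_⟩
          rcases b with _ | _ <;> simp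
      simpa using h X hX
    · intro h X _
      simpa using h X
  · constructor
    · intro h v
      have h1 := h ![Sum.inr (v, true), Sum.inr (v, false), Sum.inl false, Sum.inl false] (by
        rw [List.mem_flatMap]; exact ⟨v, List.mem_finRange v, by simp⟩)
      have h2 := h ![Sum.inr (v, true), Sum.inr (v, false), Sum.inl true, Sum.inl true] (by
        rw [List.mem_flatMap]; exact ⟨v, List.mem_finRange v, by simp⟩)
      exact ⟨by simpa using h1, by simpa using h2⟩
    · intro h g hg
      rw [List.mem_flatMap] at hg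
      obtain ⟨v, -, hg⟩ := hg
      simp only [List.mem_cons, List.not_mem_nil, or_false] at hg
      rcases hg with rfl | rfl
      · simpa using (h v).1
      · simpa using (h v).2
  · rw [List.forall_mem_map]
    constructor
    · intro h cl hcl
      simpa using h cl hcl
    · intro h cl hcl
      simpa using h cl hcl

theorem colouring_iff {n : ℕ} (φ : Formula n) :
    (∃ c : Blob n → Bool, (∃ X Y, c X ≠ c Y) ∧ Valid (gadgets φ) c) ↔ Satisfiable φ := by
  constructor
  · rintro ⟨c, ⟨X, Y, hXY⟩, hval⟩
    rw [valid_gadgets] at hval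
    obtain ⟨h1, h2, h3⟩ := hval
    -- the two constants get different colours
    have hTF : c (Sum.inl true) ≠ c (Sum.inl false) := by
      intro he
      apply hXY
      obtain ⟨b, hb, hb'⟩ := h1 X
      obtain ⟨b', hb2, hb2'⟩ := h1 Y
      rw [← he] at hb hb2
      rw [← hb', ← hb2']
      rcases hb with hb | hb <;> rcases hb2 with hb2 | hb2 <;> rw [hb, hb2]
    have hneg : ∀ l : Lit n, c (Sum.inr l) = c (Sum.inl false) →
        c (Sum.inr (Lit.neg l)) = c (Sum.inl true) := by
      rintro ⟨v, s⟩ hl
      obtain ⟨b, hb, hb'⟩ := (h2 v).2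
      subst hb'
      rcases s with _ | _
      · rcases hb with hb | hb
        · exact hb.symm
        · exact absurd (hb.trans hl) hTF
      · rcases hb with hb | hb
        · exact absurd (hb.trans hl) hTF
        · exact hb.symm
    have hneg' : ∀ l : Lit n, c (Sum.inr l) = c (Sum.inl true) →
        c (Sum.inr (Lit.neg l)) = c (Sum.inl false) := by
      rintro ⟨v, s⟩ hl
      obtain ⟨b, hb, hb'⟩ := (h2 v).1
      subst hb'
      rcases s with _ | _
      · rcases hb with hb | hb
        · exact hb.symm
        · exact absurd (hb.trans hl).symm hTF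
      · rcases hb with hb | hb
        · exact absurd (hb.trans hl).symm hTF
        · exact hb.symm
    have htwo : ∀ l : Lit n, c (Sum.inr l) = c (Sum.inl true) ∨ c (Sum.inr l) = c (Sum.inl false) := by
      intro l
      rcases c (Sum.inr l) with _ | _ <;> rcases hT : c (Sum.inl true) with _ | _ <;>
        rcases hF : c (Sum.inl false) with _ | _ <;> simp_all
    refine ⟨fun v => decide (c (Sum.inr (v, true)) = c (Sum.inl true)), ?_⟩
    intro cl hcl
    by_contra hcon
    push Not at hcon
    have hfalse : ∀ i, c (Sum.inr (cl i)) = c (Sum.inl false) := by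
      intro i
      have hi := hcon i
      rcases hcli : cl i with ⟨v, s⟩
      rw [hcli] at hi
      rcases s with _ | _
      · simp only [ne_eq, decide_eq_false_iff_not, not_not] at hi
        exact hneg' (v, true) hi
      · simp only [ne_eq, decide_eq_true_eq] at hi
        rcases htwo (v, true) with h | h
        · exact absurd h hi
        · exact h
    obtain ⟨b, hb1, hb2⟩ := h3 cl hcl
    rw [hneg _ (hfalse 0), hneg _ (hfalse 1)] at hb1
    rw [hfalse 2] at hb2
    apply hTF
    rcases hb1 with hb1 | hb1 <;> rcases hb2 with hb2 | hb2 <;> rw [← hb1, ← hb2]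
  · rintro ⟨a, ha⟩
    refine ⟨fun X => match X with
      | Sum.inl b => b
      | Sum.inr (v, s) => a v == s, ⟨Sum.inl true, Sum.inl false, by simp⟩, ?_⟩
    rw [valid_gadgets]
    refine ⟨?_, ?_, ?_⟩
    · intro X
      refine ⟨_, ?_, rfl⟩
      rcases X with b | ⟨v, s⟩
      · rcases b with _ | _ <;> simp
      · simp only
        rcases (a v == s) with _ | _ <;> simp
    · intro v
      rcases a v with _ | _ <;> simp
    · intro cl hcl
      obtain ⟨i, hi⟩ := ha cl hcl
      simp only [Lit.neg]
      by_cases h2 : a (cl 2).1 = (cl 2).2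
      · refine ⟨a (cl 0).1 == !(cl 0).2, Or.inl rfl, ?_⟩
        rw [h2]
        rcases (a (cl 0).1 == !(cl 0).2) with _ | _ <;> simp
      · have hi' : i = 0 ∨ i = 1 := by
          have hi2 : i ≠ 2 := by
            rintro rfl
            exact h2 hi
          revert hi2
          clear hi
          revert i
          decide
        refine ⟨false, ?_, Or.inr rfl⟩
        rcases hi' with rfl | rfl
        · left; rw [hi]; simp
        · right; rw [hi]; simp

end Pool.Agent.Helper40.MC.Core
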