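import Mathlib
import Pool.Agent.S4H.QDefs

/-!
3-CNF formulas, graphs given by lists of edges, their encodings as words, the graph `S_{2,2,2,2}`
and matching cuts.
-/

set_option autoImplicit false

namespace Pool.Agent.Helper40.MC

open Pool.Agent.S4H (Sy)

/-- The graph `S_{2,2,2,2}`: a centre `none`, four vertices `(i, false)` adjacent to the centre and
four leaves `(i, true)`, where `(i, true)` is adjacent to `(i, false)`. -/
def S2222 : SimpleGraph (Option (Fin 4 × Bool)) :=
  SimpleGraph.fromRel fun a b =>
    (a = none ∧ ∃ i, b = some (i, false)) ∨ (∃ i, a = some (i, false) ∧ b = some (i, true))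

/-- `G` has a matching cut: the vertex set is split into two nonempty sides `A` and `Aᶜ` such that
every vertex has at most one neighbour on the other side, that is, the edges between the sides
form a matching. -/
def HasMatchingCut {V : Type} (G : SimpleGraph V) : Prop :=
  ∃ A : Set V, A.Nonempty ∧ Aᶜ.Nonempty ∧
    ∀ v w₁ w₂, G.Adj v w₁ → G.Adj v w₂ → ¬ (v ∈ A ↔ w₁ ∈ A) → ¬ (v ∈ A ↔ w₂ ∈ A) → w₁ = w₂

/-- A literal: a variable (a natural number) together with a sign (`true` for the variable itself,
`false` for its negation). -/
abbrev Lit := ℕ × Bool

/-- A 3-CNF formula: a list of clauses, each of them a triple of literals. -/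
abbrev CNF := List (Lit × Lit × Lit)

/-- Satisfiability of a 3-CNF formula. -/
def Sat (φ : CNF) : Prop :=
  ∃ a : ℕ → Bool, ∀ c ∈ φ, a c.1.1 = c.1.2 ∨ a c.2.1.1 = c.2.1.2 ∨ a c.2.2.1 = c.2.2.2

/-- The word of `n` ones. -/
def un (n : ℕ) : List Sy := List.replicate n .one

/-- The code of a literal: its sign, the variable in unary, a separator. -/
def encLit (l : Lit) : List Sy := (if l.2 then .pos else .neg) :: (un l.1 ++ [.sep])

/-- The code of a formula: the codes of its literals one after the other. -/
def encC (φ : CNF) : List Sy := φ.flatMap fun c => encLit c.1 ++ encLit c.2.1 ++ encLit c.2.2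

/-- A presentation of a finite graph: the number `n` of vertices and a list of edges, given as pairs
of numbers less than `n`. -/
abbrev GList := ℕ × List (ℕ × ℕ)

/-- The graph presented by a number and a list of edges. -/
def graph (p : GList) : SimpleGraph (Fin p.1) :=
  SimpleGraph.fromRel fun u v => ((u : ℕ), (v : ℕ)) ∈ p.2

/-- The code of a list of edges: the ends of each edge in unary, each followed by a separator. -/
def encE (l : List (ℕ × ℕ)) : List Sy := l.flatMap fun e => un e.1 ++ [.sep] ++ un e.2 ++ [.sep]

/-- The code of a presentation of a graph: the number of vertices in unary, a separator, and the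
code of the list of edges. -/
def encG (p : GList) : List Sy := un p.1 ++ [.sep] ++ encE p.2

theorem un_sep_inj {a b : ℕ} {l l' : List Sy} (h : un a ++ .sep :: l = un b ++ .sep :: l') :
    a = b ∧ l = l' := by
  induction a generalizing b with
  | zero =>
    cases b with
    | zero => simpa [un] using h
    | succ b => simp [un, List.replicate_succ] at h
  | succ a ih =>
    cases b with
    | zero => simp [un, List.replicate_succ] at h
    | succ b =>
      rw [un, un, List.replicate_succ, List.replicate_succ, List.cons_append, List.cons_append,
        List.cons.injEq] at h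
      obtain ⟨h1, h2⟩ := ih (b := b) h.2
      exact ⟨by rw [h1], h2⟩

theorem encLit_inj {x y : Lit} {l l' : List Sy} (h : encLit x ++ l = encLit y ++ l') :
    x = y ∧ l = l' := by
  obtain ⟨v, s⟩ := x
  obtain ⟨w, t⟩ := y
  simp only [encLit, List.cons_append, List.append_assoc, List.nil_append, List.cons.injEq] at h
  obtain ⟨h1, h2⟩ := h
  obtain ⟨rfl, h3⟩ := un_sep_inj h2
  refine ⟨?_, h3⟩
  cases s <;> cases t <;> simp at h1 ⊢

theorem encC_injective : Function.Injective encC := by
  intro φ
  induction φ with
  | nil =>
    intro ψ h
    cases ψ with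
    | nil => rfl
    | cons c ψ =>
      simp [encC, encLit] at h
  | cons c φ ih =>
    intro ψ h
    cases ψ with
    | nil => simp [encC, encLit] at h
    | cons d ψ =>
      rw [encC, encC, List.flatMap_cons, List.flatMap_cons] at h
      simp only [List.append_assoc] at h
      obtain ⟨h1, h⟩ := encLit_inj h
      obtain ⟨h2, h⟩ := encLit_inj h
      obtain ⟨h3, h⟩ := encLit_inj h
      rw [ih (a₂ := ψ) (by simpa only [encC, List.append_assoc] using h)]
      congr 1
      exact Prod.ext h1 (Prod.ext h2 h3)

theorem encE_injective : Function.Injective encE := by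
  intro φ
  induction φ with
  | nil =>
    intro ψ h
    cases ψ with
    | nil => rfl
    | cons c ψ =>
      simp [encE] at h
  | cons c φ ih =>
    intro ψ h
    cases ψ with
    | nil => simp [encE] at h
    | cons d ψ =>
      rw [encE, encE, List.flatMap_cons, List.flatMap_cons] at h
      simp only [List.append_assoc, List.cons_append, List.nil_append] at h
      obtain ⟨h1, h⟩ := un_sep_inj h
      obtain ⟨h2, h⟩ := un_sep_inj h
      rw [ih (a₂ := ψ) (by
        simpa only [encE, List.append_assoc, List.cons_append, List.nil_append] using h)]
      congr 1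
      exact Prod.ext h1 h2

theorem encG_injective : Function.Injective encG := by
  rintro ⟨n, l⟩ ⟨m, l'⟩ h
  simp only [encG, List.append_assoc, List.cons_append, List.nil_append] at h
  obtain ⟨h1, h⟩ := un_sep_inj h
  exact Prod.ext h1 (encE_injective h)

end Pool.Agent.Helper40.MC
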