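import Pool.Agent.Helper40.MC.Prog3

/-!
The program which computes the reduction, and its running time: the blobs, the whole program.
-/

set_option autoImplicit false
set_option linter.unusedSectionVars false

namespace Pool.Agent.Helper40.MC

open Pool.Agent.S4H (Sy)
open Pool.Agent.S4H.Tm
open Pool.Agent.Helper64.Stk

/-! ### Counting -/

/-- The counters while the input is measured. -/
def c0 (n : ℕ) : Cn where
  c := 40 * n
  q := n
  u := 2 * n
  s := 20 * n
  b := 0
  h := 0
  g := 0
  d := 0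
  p := 0
  a := 0
  e := 0
  f := 15 * n

/-- The body of the first loop. -/
def bd0 (a : Sy) : Prog :=
  .seq (.push .X a) (.seq (emits (un 1) CK.q.key) (.seq (emits (un 40) CK.c.key)
    (.seq (emits (un 20) CK.s.key) (.seq (emits (un 2) CK.u.key) (emits (un 15) CK.f.key)))))

/-- The beginning of the program: it measures the input. -/
def ph0 : Prog :=
  .seq (drain .I bd0) (.seq (emits (un 47) CK.c.key) (.seq (emits (un 23) CK.s.key)
    (.seq (emits (un 4) CK.u.key) (.seq (emits (un 18) CK.f.key) (move .X .I)))))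

theorem ru_bd0 (a : Sy) (i x : List Sy) (n : ℕ) :
    Ru (bd0 a) (sv i x (c0 n)) (sv i (a :: x) (c0 (n + 1))) 100 := by
  have e1 : Ru (.push .X a) (sv i x (c0 n)) (sv i (a :: x) (c0 n)) 1 := Ru.push .X a _
  have e2 := ru_inc i (a :: x) (c0 n) .q 1
  have e3 := ru_inc i (a :: x) ((c0 n).set .q (1 + (c0 n).get .q)) .c 40
  have e4 := ru_inc i (a :: x) {c0 n with q := 1 + n, c := 40 + 40 * n} .s 20
  have e5 := ru_inc i (a :: x) {c0 n with q := 1 + n, c := 40 + 40 * n, s := 20 + 20 * n} .u 2
  have e6 := ru_inc i (a :: x)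
    {c0 n with q := 1 + n, c := 40 + 40 * n, s := 20 + 20 * n, u := 2 + 2 * n} .f 15
  refine (e1.seq (e2.seq (e3.seq (e4.seq (e5.seq e6))))).conv ?_ (by omega)
  congr 1
  simp only [c0, Cn.set, Cn.get]
  congr 1 <;> omega

theorem ru_ph0_loop (l : List Sy) : ∀ (x : List Sy) (n : ℕ),
    Ru (drain .I bd0) (sv l x (c0 n)) (sv [] (l.reverse ++ x) (c0 (l.length + n)))
      (l.length * 101 + 1) := by
  induction l with
  | nil =>
    intro x n
    refine (Ru.loop_nil rfl).conv ?_ (by omega)
    simp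
  | cons a l ih =>
    intro x n
    have e1 := ru_bd0 a l x n
    have e2 := ih (a :: x) (n + 1)
    have e3 := Ru.loop_step (k := .I) (stop := never) (body := bd0)
      (s := sv (a :: l) x (c0 n)) (a := a) (l := l) rfl rfl e1 e2
    refine e3.conv ?_ (by rw [List.length_cons]; omega)
    congr 1
    · simp
    · rw [List.length_cons]
      congr 1
      omega

theorem ru_ph0 (l : List Sy) :
    Ru ph0 {i := l} (stt l l.length [] 0 0 0 0) (200 * (l.length + 1)) := by
  have e0 := ru_ph0_loop l [] 0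
  rw [List.append_nil, Nat.add_zero] at e0
  set N := l.length with hN
  have e1 := ru_inc [] l.reverse (c0 N) .c 47
  have e2 := ru_inc [] l.reverse {c0 N with c := 47 + 40 * N} .s 23
  have e3 := ru_inc [] l.reverse {c0 N with c := 47 + 40 * N, s := 23 + 20 * N} .u 4
  have e4 := ru_inc [] l.reverse
    {c0 N with c := 47 + 40 * N, s := 23 + 20 * N, u := 4 + 2 * N} .f 18
  have e5 := ru_move (k := .X) (k' := .I) (by decide) (sv [] l.reverse
    {c0 N with c := 47 + 40 * N, s := 23 + 20 * N, u := 4 + 2 * N, f := 18 + 15 * N})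
  have hx : (sv [] l.reverse
    {c0 N with c := 47 + 40 * N, s := 23 + 20 * N, u := 4 + 2 * N, f := 18 + 15 * N}).fn .X =
    l.reverse := rfl
  have hi : (sv [] l.reverse
    {c0 N with c := 47 + 40 * N, s := 23 + 20 * N, u := 4 + 2 * N, f := 18 + 15 * N}).fn .I =
    [] := rfl
  rw [hx, hi, List.reverse_reverse, List.append_nil, List.length_reverse] at e5
  have e := e0.seq (e1.seq (e2.seq (e3.seq (e4.seq e5))))
  refine e.conv ?_ (by omega)
  show sv l [] _ = sv l [] (cs N 0 0 0 0 0)
  congr 1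
  simp only [c0, cs, W]
  congr 1 <;> omega

/-! ### The blobs -/

/-- The counters during the last part. -/
def cc (N B D P A : ℕ) : Cn where
  c := W N
  q := N
  u := 2 * N + 4
  s := 20 * N + 23
  b := B
  h := 0
  g := 0
  d := D
  p := P
  a := A
  e := 15 * N + 18
  f := 0

theorem cc_le {N B D P A : ℕ} (hB : B ≤ MB N) (hP : P ≤ MB N) (hD : D ≤ 2 * N + 4)
    (hA : A ≤ 20 * N + 23) (k : CK) : (cc N B D P A).get k ≤ MB N := by
  have h1 := lin_le N
  have h2 := W_le N
  cases k <;> simp only [cc, Cn.get] <;> omega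

/-- The output. -/
def oE (L : List (ℕ × ℕ)) : List Sy := (encE L).reverse

/-- The edges of a triangle of a blob. -/
def chT : List (Tn × Tn) :=
  [((0, [.p]), (1, [.p])), ((1, [.p]), (2, [.p])), ((0, [.p]), (2, [.p]))]

/-- The body of the inner loop. -/
def bd5 : Prog := .seq (edP chT) (emits (un 2) CK.p.key)

/-- Write a blob. -/
def blP : Prog :=
  .seq (copy CK.b.key CK.p.key) (.seq (copy CK.s.key CK.a.key) (.seq (drain CK.a.key fun _ => bd5)
    (.seq (clear CK.p.key) (copy CK.c.key CK.b.key))))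

/-- The fifth part of the program: it writes the blobs. -/
def ph5 : Prog :=
  .seq (clear CK.f.key) (.seq (copy CK.e.key CK.b.key) (.seq (copy CK.u.key CK.d.key)
    (drain CK.d.key fun _ => blP)))

theorem ru_bd5 (N B D P A : ℕ) (L : List (ℕ × ℕ)) (hB : B ≤ MB N) (hP : P ≤ MB N)
    (hD : D ≤ 2 * N + 4) (hA : A ≤ 20 * N + 23) :
    Ru bd5 (sv [] (oE L) (cc N B D P A)) (sv [] (oE (L ++ chE P)) (cc N B D (P + 2) A))
      (50 * (MB N + 1)) := by
  have e1 := ru_edP chT [] (oE L) (cc N B D P A) (MB N) (cc_le hB hP hD hA)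
  have h1 : (cc N B D P A).vals chT = chE P := by
    simp only [chT, Cn.vals, Cn.val, List.map_cons, List.map_nil, List.sum_cons, List.sum_nil, chE]
    simp only [Cn.get, cc]
    congr 1
    · congr 1 <;> omega
    congr 1
    · congr 1 <;> omega
    congr 1
    congr 1 <;> omega
  have h2 : (encE (chE P)).reverse ++ oE L = oE (L ++ chE P) := by
    rw [oE, oE, encE_append, List.reverse_append]
  rw [h1, h2] at e1
  have e2 := ru_inc [] (oE (L ++ chE P)) (cc N B D P A) .p 2
  have h3 : (cc N B D P A).set .p (2 + (cc N B D P A).get .p) = cc N B D (P + 2) A := by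
    simp only [Cn.get, Cn.set, cc]
    congr 1
    omega
  rw [h3] at e2
  refine (e1.seq e2).mono ?_
  have h4 : edC chT = 6 := rfl
  have h5 : edK chT = 25 := rfl
  rw [h4, h5]
  omega

theorem ru_blP (N x D : ℕ) (L : List (ℕ × ℕ)) (hx : x ≤ 2 * N + 3) (hD : D ≤ 2 * N + 4) :
    Ru blP (sv [] (oE L) (cc N (15 * N + 18 + x * W N) D 0 0))
      (sv [] (oE (L ++ chL (15 * N + 18 + x * W N) (20 * N + 23)))
        (cc N (15 * N + 18 + (x + 1) * W N) D 0 0))
      (2000 * ((N + 1) * (MB N + 1))) := by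
  have hb := base_le (N := N) (a := x) (by omega)
  set b := 15 * N + 18 + x * W N with hbd
  have e1 : Ru (copy CK.b.key CK.p.key) (sv [] (oE L) (cc N b D 0 0))
      (sv [] (oE L) (cc N b D (b + 0) 0)) (5 * b + 2) :=
    ru_cp [] (oE L) (cc N b D 0 0) (k := .b) (k' := .p) (by decide)
  have e2 : Ru (copy CK.s.key CK.a.key) (sv [] (oE L) (cc N b D (b + 0) 0))
      (sv [] (oE L) (cc N b D (b + 0) (20 * N + 23))) (5 * (20 * N + 23) + 2) :=
    ru_cp [] (oE L) (cc N b D (b + 0) 0) (k := .s) (k' := .a) (by decide)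
  have e3 := ru_for .a bd5 (20 * N + 23) (50 * (MB N + 1)) [] (fun m => cc N b D (b + 2 * m) 0)
    (fun m => oE (L ++ chL b m)) (by
      intro m hm
      have h1 := ru_bd5 N b D (b + 2 * m) (20 * N + 23 - 1 - m) (L ++ chL b m) (by omega)
        (by omega) hD (by omega)
      have h2 : L ++ chL b m ++ chE (b + 2 * m) = L ++ chL b (m + 1) := by
        rw [chL, chL, List.range_succ, List.flatMap_append, List.append_assoc]
        simp
      rw [h2] at h1
      exact h1)
  have e3' : Ru (drain CK.a.key fun _ => bd5) (sv [] (oE L) (cc N b D (b + 0) (20 * N + 23)))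
      (sv [] (oE (L ++ chL b (20 * N + 23))) (cc N b D (b + 2 * (20 * N + 23)) 0))
      ((20 * N + 23) * (50 * (MB N + 1) + 1) + 1) := by
    have h0 : L ++ chL b 0 = L := by simp [chL]
    simp only [h0] at e3
    exact e3
  have e4 : Ru (clear CK.p.key)
      (sv [] (oE (L ++ chL b (20 * N + 23))) (cc N b D (b + 2 * (20 * N + 23)) 0))
      (sv [] (oE (L ++ chL b (20 * N + 23))) (cc N b D 0 0)) (2 * (b + 2 * (20 * N + 23)) + 1) :=
    ru_cl [] _ (cc N b D (b + 2 * (20 * N + 23)) 0) .p
  have e5 : Ru (copy CK.c.key CK.b.key)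
      (sv [] (oE (L ++ chL b (20 * N + 23))) (cc N b D 0 0))
      (sv [] (oE (L ++ chL b (20 * N + 23))) (cc N (15 * N + 18 + (x + 1) * W N) D 0 0))
      (5 * W N + 2) := by
    have h := ru_cp [] (oE (L ++ chL b (20 * N + 23))) (cc N b D 0 0) (k := .c) (k' := .b)
      (by decide)
    refine h.conv ?_ le_rfl
    rw [show 15 * N + 18 + (x + 1) * W N = W N + b by rw [hbd]; ring]
    rfl
  refine (e1.seq (e2.seq (e3'.seq (e4.seq e5)))).mono ?_
  have h1 := le_xy N (MB N)
  have h2 : (20 * N + 23) * (50 * (MB N + 1) + 1) ≤ 23 * 51 * ((N + 1) * (MB N + 1)) :=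
    mul_bd (by omega) (by omega)
  have h3 := W_le N
  have h4 := lin_le N
  omega

theorem ru_ph5 (N : ℕ) (l : List Quad) (hl : l.length = 5 * N + 6) :
    Ru ph5 (stt [] N l 0 0 0 0)
      (sv [] (oE (gadEs N 0 l ++ chEs N (2 * N + 4)))
        (cc N (15 * N + 18 + (2 * N + 4) * W N) 0 0 0))
      (10000 * ((N + 1) * ((N + 1) * (MB N + 1)))) := by
  have e1 : Ru (clear CK.f.key) (stt [] N l 0 0 0 0) (sv [] (ot N l) (cc N 0 0 0 0))
      (2 * (15 * N + 18 + 8 * l.length) + 1) := by
    refine (ru_cl [] (ot N l) (cs N l.length 0 0 0 0) .f).conv ?_ le_rfl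
    congr 1
    simp only [cs, cc, Cn.set, hl]
    congr 1
    omega
  have e2 : Ru (copy CK.e.key CK.b.key) (sv [] (ot N l) (cc N 0 0 0 0))
      (sv [] (ot N l) (cc N (15 * N + 18) 0 0 0)) (5 * (15 * N + 18) + 2) :=
    ru_cp [] (ot N l) (cc N 0 0 0 0) (k := .e) (k' := .b) (by decide)
  have e3 : Ru (copy CK.u.key CK.d.key) (sv [] (ot N l) (cc N (15 * N + 18) 0 0 0))
      (sv [] (ot N l) (cc N (15 * N + 18) (2 * N + 4) 0 0)) (5 * (2 * N + 4) + 2) :=
    ru_cp [] (ot N l) (cc N (15 * N + 18) 0 0 0) (k := .u) (k' := .d) (by decide)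
  have e4 := ru_for .d blP (2 * N + 4) (2000 * ((N + 1) * (MB N + 1))) []
    (fun m => cc N (15 * N + 18 + m * W N) 0 0 0)
    (fun m => oE (gadEs N 0 l ++ chEs N m)) (by
      intro m hm
      have h1 := ru_blP N m (2 * N + 4 - 1 - m) (gadEs N 0 l ++ chEs N m) (by omega) (by omega)
      have h2 : gadEs N 0 l ++ chEs N m ++ chL (15 * N + 18 + m * W N) (20 * N + 23) =
          gadEs N 0 l ++ chEs N (m + 1) := by
        rw [chEs, chEs, List.range_succ, List.flatMap_append, List.append_assoc]
        simp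
      rw [h2] at h1
      exact h1)
  have e4' : Ru (drain CK.d.key fun _ => blP) (sv [] (ot N l) (cc N (15 * N + 18) (2 * N + 4) 0 0))
      (sv [] (oE (gadEs N 0 l ++ chEs N (2 * N + 4)))
        (cc N (15 * N + 18 + (2 * N + 4) * W N) 0 0 0))
      ((2 * N + 4) * (2000 * ((N + 1) * (MB N + 1)) + 1) + 1) := by
    have h0 : gadEs N 0 l ++ chEs N 0 = gadEs N 0 l := by simp [chEs]
    have h1 : 15 * N + 18 + 0 * W N = 15 * N + 18 := by rw [Nat.zero_mul, Nat.add_zero]
    simp only [h0, h1] at e4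
    exact e4
  refine (e1.seq (e2.seq (e3.seq e4'))).mono ?_
  rw [hl]
  have h1 := le_xy N (MB N)
  have h2 : (2 * N + 4) * (2000 * ((N + 1) * (MB N + 1)) + 1) ≤
      4 * 2001 * ((N + 1) * ((N + 1) * (MB N + 1))) := mul_bd (by omega) (by omega)
  have h3 : (N + 1) * (MB N + 1) ≤ (N + 1) * ((N + 1) * (MB N + 1)) :=
    Nat.le_mul_of_pos_left _ (Nat.succ_pos _)
  have h4 := lin_le N
  have h5 := h1.1
  have h6 := h1.2
  clear e1 e2 e3 e4 e4' h1
  generalize (N + 1) * ((N + 1) * (MB N + 1)) = Z at *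
  generalize (N + 1) * (MB N + 1) = Y at *
  generalize (2 * N + 4) * (2000 * Y + 1) = T at *
  generalize MB N = M at *
  omega

/-! ### The end -/

/-- The last part of the program: it cleans up and writes the number of vertices. -/
def ph6 : Prog :=
  .seq (clear CK.c.key) (.seq (clear CK.q.key) (.seq (clear CK.u.key) (.seq (clear CK.s.key)
    (.seq (clear CK.e.key) (.seq (move .X .O) (.seq (.push .O .sep) (.seq (copy .B .O)
    (clear .B))))))))

theorem ru_ph6 (N b : ℕ) (L : List (ℕ × ℕ)) (hb : b ≤ MB N) :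
    Ru ph6 (sv [] (oE L) (cc N b 0 0 0)) {o := encG (b, L)}
      (100 * (MB N + 1) + 2 * (oE L).length) := by
  have e1 : Ru (clear CK.c.key) (sv [] (oE L) (cc N b 0 0 0))
      (sv [] (oE L) {cc N b 0 0 0 with c := 0}) (2 * W N + 1) := ru_cl [] _ (cc N b 0 0 0) .c
  have e2 : Ru (clear CK.q.key) (sv [] (oE L) {cc N b 0 0 0 with c := 0})
      (sv [] (oE L) {cc N b 0 0 0 with c := 0, q := 0}) (2 * N + 1) :=
    ru_cl [] _ {cc N b 0 0 0 with c := 0} .q
  have e3 : Ru (clear CK.u.key) (sv [] (oE L) {cc N b 0 0 0 with c := 0, q := 0})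
      (sv [] (oE L) {cc N b 0 0 0 with c := 0, q := 0, u := 0}) (2 * (2 * N + 4) + 1) :=
    ru_cl [] _ {cc N b 0 0 0 with c := 0, q := 0} .u
  have e4 : Ru (clear CK.s.key) (sv [] (oE L) {cc N b 0 0 0 with c := 0, q := 0, u := 0})
      (sv [] (oE L) {cc N b 0 0 0 with c := 0, q := 0, u := 0, s := 0})
      (2 * (20 * N + 23) + 1) :=
    ru_cl [] _ {cc N b 0 0 0 with c := 0, q := 0, u := 0} .s
  have e5 : Ru (clear CK.e.key) (sv [] (oE L) {cc N b 0 0 0 with c := 0, q := 0, u := 0, s := 0})
      ({x := oE L, b := un b} : St) (2 * (15 * N + 18) + 1) :=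
    ru_cl [] _ {cc N b 0 0 0 with c := 0, q := 0, u := 0, s := 0} .e
  have e6 : Ru (move .X .O) ({x := oE L, b := un b} : St) ({o := encE L, b := un b} : St)
      (2 * (oE L).length + 1) := by
    refine (ru_move (k := .X) (k' := .O) (by decide) ({x := oE L, b := un b} : St)).conv ?_ le_rfl
    simp [St.put, St.fn, oE]
  have e7 : Ru (.push .O .sep) ({o := encE L, b := un b} : St)
      ({o := .sep :: encE L, b := un b} : St) 1 := Ru.push .O .sep _
  have e8 : Ru (copy .B .O) ({o := .sep :: encE L, b := un b} : St)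
      ({o := encG (b, L), b := un b} : St) (5 * b + 2) := by
    refine (ru_copy1 (k := .B) (out := .O) (by decide) (by decide) (by decide)
      ({o := .sep :: encE L, b := un b} : St) rfl (n := b) rfl).conv ?_ le_rfl
    simp [St.put, St.fn, encG, un]
  have e9 : Ru (clear .B) ({o := encG (b, L), b := un b} : St) {o := encG (b, L)}
      (2 * b + 1) := by
    refine (ru_clear .B ({o := encG (b, L), b := un b} : St)).conv rfl ?_
    simp [St.fn, un]
  refine (e1.seq (e2.seq (e3.seq (e4.seq (e5.seq (e6.seq (e7.seq (e8.seq e9)))))))).mono ?_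
  have h3 := W_le N
  have h4 := lin_le N
  omega

/-! ### The whole program -/

/-- The program. -/
def mainP : Prog := .seq ph0 (.seq ph1 (.seq ph2 (.seq ph3 (.seq ph4 (.seq ph5 ph6)))))

theorem encLit_length (y : Lit) : (encLit y).length = y.1 + 2 := by
  simp [encLit, un]

theorem vle_enc (φ : CNF) : Vle (encC φ).length φ ∧ 6 * φ.length ≤ (encC φ).length := by
  induction φ with
  | nil => exact ⟨fun c hc => absurd hc List.not_mem_nil, by simp⟩
  | cons c φ ih =>
    have h : (encC (c :: φ)).length = c.1.1 + c.2.1.1 + c.2.2.1 + 6 + (encC φ).length := by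
      rw [encC, List.flatMap_cons, List.length_append, List.length_append, List.length_append,
        encLit_length, encLit_length, encLit_length]
      show _ + (encC φ).length = _
      ring
    rw [h]
    refine ⟨?_, by rw [List.length_cons]; omega⟩
    intro d hd
    rcases List.mem_cons.1 hd with rfl | hd
    · exact ⟨by omega, by omega, by omega⟩
    · have := ih.1 d hd
      exact ⟨by omega, by omega, by omega⟩

theorem gl_length (N : ℕ) (φ : CNF) (h : φ.length ≤ N) : (gl N φ).length = 5 * N + 6 := by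
  simp only [gl, List.length_append, List.length_map, List.length_range, List.length_replicate,
    List.length_flatMap, f2, List.length_cons, List.length_nil, List.map_const', List.sum_replicate,
    smul_eq_mul]
  omega

theorem len_x {c : Prog} {s s' : St} {B : ℕ} (h : Ru c s s' B) (k : Key) :
    (s'.fn k).length ≤ (s.fn k).length + B := by
  obtain ⟨t, ht, hr⟩ := h
  have := hr.length_le k
  omega

theorem ru_main (φ : CNF) : Ru mainP {i := encC φ} {o := encG (red φ)}
    (60000 * (((encC φ).length + 1) * (((encC φ).length + 1) * (MB (encC φ).length + 1)))) := by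
  set N := (encC φ).length with hN
  obtain ⟨hv, hm⟩ := vle_enc φ
  rw [← hN] at hv hm
  have e0 := ru_ph0 (encC φ)
  rw [← hN] at e0
  have e1 := ru_ph1 (encC φ) N
  have hl1 : ((List.range (2 * N + 4)).map f1).length = 2 * N + 4 := by simp
  have e2 := ru_ph2 (encC φ) N _ hl1
  have hl2 : ((List.range (2 * N + 4)).map f1 ++ (List.range (N + 1)).flatMap f2).length =
      4 * N + 6 := by
    simp only [List.length_append, List.length_map, List.length_range, List.length_flatMap, f2,
      List.length_cons, List.length_nil, List.map_const', List.sum_replicate, smul_eq_mul]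
    omega
  have e3 := ru_ph3 N φ _ hv (by rw [hl2]; omega) (by omega)
  have e4 := ru_ph4 N (N - φ.length) ((List.range (2 * N + 4)).map f1 ++
    (List.range (N + 1)).flatMap f2 ++ φ.map f3)
    (by rw [List.length_append, hl2, List.length_map]; omega) (by omega)
  have e5 := ru_ph5 N (gl N φ) (gl_length N φ (by omega))
  have e6 := ru_ph6 N (15 * N + 18 + (2 * N + 4) * W N)
    (gadEs N 0 (gl N φ) ++ chEs N (2 * N + 4))
    (by have := base_le (N := N) (a := 2 * N + 4) (by omega); omega)
  have hlen := len_x (e0.seq (e1.seq (e2.seq (e3.seq (e4.seq e5))))) .X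
  have hx : ((sv [] (oE (gadEs N 0 (gl N φ) ++ chEs N (2 * N + 4)))
    (cc N (15 * N + 18 + (2 * N + 4) * W N) 0 0 0)).fn .X) =
    oE (gadEs N 0 (gl N φ) ++ chEs N (2 * N + 4)) := rfl
  have hx0 : (({i := encC φ} : St).fn .X) = [] := rfl
  rw [hx, hx0, List.length_nil, Nat.zero_add] at hlen
  have e := e0.seq (e1.seq (e2.seq (e3.seq (e4.seq (e5.seq e6)))))
  refine e.mono ?_
  obtain ⟨h1, h2⟩ := le_xy N (MB N)
  have h3 : (N + 1) * (MB N + 1) ≤ (N + 1) * ((N + 1) * (MB N + 1)) :=
    Nat.le_mul_of_pos_left _ (Nat.succ_pos _)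
  clear e e0 e1 e2 e3 e4 e5 e6 hx hx0
  generalize (oE (gadEs N 0 (gl N φ) ++ chEs N (2 * N + 4))).length = X at *
  generalize (N + 1) * ((N + 1) * (MB N + 1)) = Z at *
  generalize (N + 1) * (MB N + 1) = Y at *
  generalize MB N = M at *
  omega

theorem only_I (l : List Sy) : only Key.I l = ({i := l} : St).fn := by
  funext k; cases k <;> rfl

theorem only_O (l : List Sy) : only Key.O l = ({o := l} : St).fn := by
  funext k; cases k <;> rfl

/-- The reduction is computable in polynomial time. -/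
theorem red_poly : Nonempty (Turing.TM2ComputableInPolyTime encC encG red) := by
  refine ⟨computable_of_runs encC encG red Key.I Key.O mainP
    (60000 * ((Polynomial.X + 1) * ((Polynomial.X + 1) *
      (400 * (Polynomial.X + 1) ^ 2 + 1)))) fun φ => ?_⟩
  obtain ⟨t, ht, hr⟩ := ru_main φ
  refine ⟨t, ?_, ?_⟩
  · refine ht.trans (le_of_eq ?_)
    rw [MB]
    simp only [Polynomial.eval_mul, Polynomial.eval_add, Polynomial.eval_X, Polynomial.eval_one,
      Polynomial.eval_pow, Polynomial.eval_ofNat]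
  · rw [only_I, only_O]
    exact hr

end Pool.Agent.Helper40.MC
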