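import Pool.Agent.Helper40.MC.Core
import Pool.Agent.Helper40.MC.Prog5

/-!
The graph produced by the reduction is isomorphic to the graph of the list of gadgets.
-/

set_option autoImplicit false

namespace Pool.Agent.Helper40.MC

open SimpleGraph
open Pool.Agent.Helper40.MC.Core (Blob Formula Vert satGraph gadgets gadgetGraph edgeRel Satisfiable)
open Core.Vert

/-! ### The list of gadgets -/

/-- The number of a blob. -/
def bi {n : ℕ} : Blob n → ℕ
  | Sum.inl true => 0
  | Sum.inl false => 1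
  | Sum.inr (v, s) => li (v.val, s)

/-- A gadget with numbers of blobs. -/
def qd {n : ℕ} (g : Fin 4 → Blob n) : Quad := (bi (g 0), bi (g 1), bi (g 2), bi (g 3))

/-- The literal as a literal in `N + 1` variables. -/
def cl (N : ℕ) (y : Lit) : Core.Lit (N + 1) := (Fin.ofNat (N + 1) y.1, y.2)

/-- The clause as a clause in `N + 1` variables. -/
def cv (N : ℕ) (c : Lit × Lit × Lit) : Fin 3 → Core.Lit (N + 1) :=
  ![cl N c.1, cl N c.2.1, cl N c.2.2]

/-- A clause which is always satisfied. -/
def dum (N : ℕ) : Fin 3 → Core.Lit (N + 1) := ![(0, true), (0, false), (0, true)]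

/-- The formula as a formula in `N + 1` variables with `N` clauses. -/
def fo (N : ℕ) (φ : CNF) : Formula (N + 1) :=
  φ.map (cv N) ++ List.replicate (N - φ.length) (dum N)

theorem bi_cl {N : ℕ} {y : Lit} (h : y.1 ≤ N) : bi (Sum.inr (cl N y) : Blob (N + 1)) = li y := by
  obtain ⟨v, s⟩ := y
  show li ((Fin.ofNat (N + 1) v).val, s) = li (v, s)
  rw [Fin.val_ofNat, Nat.mod_eq_of_lt (by simp only at h; omega)]

theorem bi_neg {N : ℕ} {y : Lit} (h : y.1 ≤ N) :
    bi (Sum.inr (Core.Lit.neg (cl N y)) : Blob (N + 1)) = li (ng y) := by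
  obtain ⟨v, s⟩ := y
  show li ((Fin.ofNat (N + 1) v).val, !s) = li (v, !s)
  rw [Fin.val_ofNat, Nat.mod_eq_of_lt (by simp only at h; omega)]

theorem range_two (n : ℕ) : List.range (2 * n + 2) =
    [0, 1] ++ (List.range n).flatMap fun v => [2 * v + 2, 2 * v + 3] := by
  induction n with
  | zero => rfl
  | succ n ih =>
    rw [show 2 * (n + 1) + 2 = (2 * n + 2) + 1 + 1 by ring, List.range_succ, List.range_succ, ih,
      List.range_succ, List.flatMap_append]
    simp

theorem finRange_flatMap {α : Type} (n : ℕ) (f : ℕ → List α) :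
    ((List.finRange n).flatMap fun v => f v.val) = (List.range n).flatMap f := by
  rw [← List.map_coe_finRange_eq_range, List.flatMap_map]

theorem qd_gadgets (N : ℕ) (φ : CNF) (hv : Vle N φ) :
    (gadgets (fo N φ)).map qd = gl N φ := by
  unfold gadgets gl
  rw [List.map_append, List.map_append, List.append_assoc, List.append_assoc, List.append_assoc]
  congr 1
  · -- the first kind
    rw [List.map_map]
    have h1 : (qd ∘ fun X : Blob (N + 1) => ![Sum.inl true, Sum.inl false, X, X]) =
        f1 ∘ bi := by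
      funext X
      rfl
    rw [h1, ← List.map_map]
    congr 1
    rw [show 2 * N + 4 = 2 * (N + 1) + 2 by ring, range_two, List.map_append, List.map_flatMap]
    congr 1
    rw [← finRange_flatMap]
    rfl
  congr 1
  · -- the second kind
    rw [List.map_flatMap, ← finRange_flatMap]
    rfl
  · -- the clauses
    rw [fo, List.map_append, List.map_append, List.map_map, List.map_map, List.map_replicate,
      List.map_replicate]
    congr 1
    refine List.map_congr_left fun c hc => ?_
    obtain ⟨h1, h2, h3⟩ := hv c hc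
    show (bi (Sum.inr (Core.Lit.neg (cl N c.1))), bi (Sum.inr (Core.Lit.neg (cl N c.2.1))),
      bi (Sum.inr (cl N c.2.2)), 1) = f3 c
    rw [bi_neg h1, bi_neg h2, bi_cl h3]
    rfl

/-! ### Labels -/

theorem bi_lt {N : ℕ} (X : Blob (N + 1)) : bi X < 2 * N + 4 := by
  rcases X with (_ | _) | ⟨v, s⟩
  · show 1 < _; omega
  · show 0 < _; omega
  · have := v.2
    show li (v.val, s) < _
    rw [li]
    split_ifs <;> simp only <;> omega

theorem bi_inj {N : ℕ} {X Y : Blob (N + 1)} (h : bi X = bi Y) : X = Y := by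
  have hli : ∀ y : Lit, 2 ≤ li y := by
    intro y
    rw [li]
    omega
  rcases X with (_ | _) | ⟨v, s⟩ <;> rcases Y with (_ | _) | ⟨w, t⟩
  · rfl
  · exact absurd (show (1 : ℕ) = 0 from h) (by decide)
  · have h1 : 1 = li (w.val, t) := h
    have := hli (w.val, t)
    omega
  · exact absurd (show (0 : ℕ) = 1 from h) (by decide)
  · rfl
  · have h1 : 0 = li (w.val, t) := h
    have := hli (w.val, t)
    omega
  · have h1 : li (v.val, s) = 1 := h
    have := hli (v.val, s)
    omega
  · have h1 : li (v.val, s) = 0 := h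
    have := hli (v.val, s)
    omega
  · have h1 : li (v.val, s) = li (w.val, t) := h
    have h2 : v.val = w.val ∧ s = t := by
      cases s <;> cases t <;> simp [li] at h1 ⊢ <;> omega
    rw [Fin.ext h2.1, h2.2]

theorem mulW_inj {N a b r s : ℕ} (hr : r < W N) (hs : s < W N)
    (h : a * W N + r = b * W N + s) : a = b ∧ r = s := by
  have hW : 0 < W N := by rw [W]; omega
  have h1 : (a * W N + r) / W N = a := by
    rw [Nat.mul_comm, Nat.mul_add_div hW, Nat.div_eq_of_lt hr, Nat.add_zero]
  have h2 : (b * W N + s) / W N = b := by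
    rw [Nat.mul_comm, Nat.mul_add_div hW, Nat.div_eq_of_lt hs, Nat.add_zero]
  have h3 : a = b := by rw [← h1, ← h2, h]
  subst h3
  exact ⟨rfl, by omega⟩

/-- The label of a vertex. -/
def lab (N : ℕ) {k : ℕ} : Vert (Blob (N + 1)) k → ℕ
  | main X s => 15 * N + 18 + (bi X * W N + 2 * s.val)
  | apex X s => 15 * N + 18 + (bi X * W N + (2 * s.val + 1))
  | gad j i => 3 * j.val + i.val

theorem lab_lt {N k : ℕ} (hk : k = 5 * N + 6) (u : Vert (Blob (N + 1)) k) :
    lab N u < 15 * N + 18 + (2 * N + 4) * W N := by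
  have key : ∀ X : Blob (N + 1), bi X * W N + W N ≤ (2 * N + 4) * W N := by
    intro X
    have h1 := bi_lt X
    calc bi X * W N + W N = (bi X + 1) * W N := by ring
      _ ≤ (2 * N + 4) * W N := Nat.mul_le_mul_right _ h1
  have hW : W N = 40 * N + 47 := rfl
  rcases u with ⟨X, s⟩ | ⟨X, s⟩ | ⟨j, i⟩
  · have h1 := key X
    have h2 := s.2
    simp only [lab]
    omega
  · have h1 := key X
    have h2 := s.2
    simp only [lab]
    omega
  · have h1 := j.2
    have h2 := i.2
    simp only [lab]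
    omega

theorem lab_inj {N k : ℕ} (hk : k = 5 * N + 6) {u v : Vert (Blob (N + 1)) k}
    (h : lab N u = lab N v) : u = v := by
  have hW : W N = 40 * N + 47 := rfl
  rcases u with ⟨X, s⟩ | ⟨X, s⟩ | ⟨j, i⟩ <;> rcases v with ⟨Y, t⟩ | ⟨Y, t⟩ | ⟨j', i'⟩ <;>
    simp only [lab] at h
  · have hs := s.2
    have ht := t.2
    obtain ⟨h1, h2⟩ := mulW_inj (N := N) (a := bi X) (b := bi Y) (by omega) (by omega)
      (Nat.add_left_cancel h)
    rw [bi_inj h1, Fin.ext (show s.val = t.val by omega)]
  · have hs := s.2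
    have ht := t.2
    obtain ⟨h1, h2⟩ := mulW_inj (N := N) (a := bi X) (b := bi Y) (by omega) (by omega)
      (Nat.add_left_cancel h)
    omega
  · have hs := s.2
    have hj := j'.2
    have hi := i'.2
    omega
  · have hs := s.2
    have ht := t.2
    obtain ⟨h1, h2⟩ := mulW_inj (N := N) (a := bi X) (b := bi Y) (by omega) (by omega)
      (Nat.add_left_cancel h)
    omega
  · have hs := s.2
    have ht := t.2
    obtain ⟨h1, h2⟩ := mulW_inj (N := N) (a := bi X) (b := bi Y) (by omega) (by omega)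
      (Nat.add_left_cancel h)
    rw [bi_inj h1, Fin.ext (show s.val = t.val by omega)]
  · have hs := s.2
    have hj := j'.2
    have hi := i'.2
    omega
  · have hs := t.2
    have hj := j.2
    have hi := i.2
    omega
  · have hs := t.2
    have hj := j.2
    have hi := i.2
    omega
  · have hi := i.2
    have hi' := i'.2
    rw [Fin.ext (show j.val = j'.val by omega), Fin.ext (show i.val = i'.val by omega)]

theorem lab_bij {N k : ℕ} (hk : k = 5 * N + 6) :
    Function.Bijective (fun u : Vert (Blob (N + 1)) k =>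
      (⟨lab N u, lab_lt hk u⟩ : Fin (15 * N + 18 + (2 * N + 4) * W N))) := by
  classical
  have : Fintype (Vert (Blob (N + 1)) k) := Fintype.ofEquiv _ (Core.vertEquiv _ k).symm
  rw [Fintype.bijective_iff_injective_and_card]
  refine ⟨fun u v h => lab_inj hk (by simpa using h), ?_⟩
  rw [Fintype.card_congr (Core.vertEquiv _ k)]
  simp only [Fintype.card_sum, Fintype.card_prod, Fintype.card_fin, Fintype.card_bool]
  subst hk
  have h1 : 4 * (5 * N + 6) - 1 = 20 * N + 23 := by omega
  rw [h1, W]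
  ring

/-! ### Edges -/

theorem mem_gadEs {N : ℕ} {e : ℕ × ℕ} {l : List Quad} : ∀ {j : ℕ},
    e ∈ gadEs N j l ↔ ∃ m, ∃ h : m < l.length, e ∈ gadE N (j + m) l[m] := by
  induction l with
  | nil => intro j; simp [gadEs]
  | cons g l ih =>
    intro j
    rw [gadEs, List.mem_append, ih]
    constructor
    · rintro (h | ⟨m, hm, h⟩)
      · exact ⟨0, by simp, by simpa using h⟩
      · refine ⟨m + 1, by simpa using hm, ?_⟩
        rw [show j + (m + 1) = j + 1 + m by omega]
        simpa using h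
    · rintro ⟨m, hm, h⟩
      cases m with
      | zero => left; simpa using h
      | succ m =>
        right
        refine ⟨m, by simpa using hm, ?_⟩
        rw [show j + 1 + m = j + (m + 1) by omega]
        simpa using h

/-- The edges, each in one direction only. -/
def E1 {B : Type} (L : List (Fin 4 → B)) : Vert B L.length → Vert B L.length → Prop
  | main X s, main Y t => X = Y ∧ t.val = s.val + 1
  | main X s, apex Y t => X = Y ∧ t.val = s.val
  | apex X s, main Y t => X = Y ∧ t.val = s.val + 1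
  | gad j i, gad j' i' => j = j' ∧ i.val < i'.val
  | gad j i, main Y t => ∃ r : Fin 4, t.val = 4 * j.val + r.val ∧ r.val / 2 = i.val ∧ L.get j r = Y
  | _, _ => False

theorem E1_symm {B : Type} (L : List (Fin 4 → B)) {u v : Vert B L.length} (huv : u ≠ v) :
    (E1 L u v ∨ E1 L v u) ↔ (edgeRel L u v ∨ edgeRel L v u) := by
  rcases u with ⟨X, s⟩ | ⟨X, s⟩ | ⟨j, i⟩ <;> rcases v with ⟨Y, t⟩ | ⟨Y, t⟩ | ⟨j', i'⟩ <;>
    simp only [E1, edgeRel, or_false, false_or, or_self]
  · constructor
    · rintro (⟨h1, h2⟩ | ⟨h1, h2⟩)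
      · exact ⟨h1.symm, Or.inl h2.symm⟩
      · exact ⟨h1, Or.inr h2⟩
    · rintro ⟨h1, h2 | h2⟩
      · exact Or.inl ⟨h1.symm, h2.symm⟩
      · exact Or.inr ⟨h1, h2⟩
  · constructor
    · rintro (⟨h1, h2⟩ | ⟨h1, h2⟩)
      · exact ⟨h1, Or.inr h2⟩
      · exact ⟨h1.symm, Or.inl h2.symm⟩
    · rintro ⟨h1, h2 | h2⟩
      · exact Or.inr ⟨h1.symm, h2.symm⟩
      · exact Or.inl ⟨h1, h2⟩
  · constructor
    · rintro (⟨h1, h2⟩ | ⟨h1, h2⟩)
      · exact Or.inl h1
      · exact Or.inr h1
    · intro h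
      have h1 : j = j' := by
        rcases h with h | h
        · exact h
        · exact h.symm
      have h2 : i.val ≠ i'.val := by
        intro h2
        exact huv (by rw [h1, Fin.ext h2])
      rcases Nat.lt_or_gt_of_ne h2 with h3 | h3
      · exact Or.inl ⟨h1, h3⟩
      · exact Or.inr ⟨h1.symm, h3⟩

theorem mem_chEs {N n : ℕ} {e : ℕ × ℕ} : e ∈ chEs N n ↔
    ∃ x < n, ∃ s < 20 * N + 23, e ∈ chE (15 * N + 18 + x * W N + 2 * s) := by
  simp only [chEs, chL, List.mem_flatMap, List.mem_range]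

theorem bi_surj {N x : ℕ} (hx : x < 2 * N + 4) : ∃ X : Blob (N + 1), bi X = x := by
  rcases Nat.lt_or_ge x 2 with h | h
  · rcases Nat.eq_zero_or_pos x with h0 | h0
    · exact ⟨Sum.inl true, h0.symm⟩
    · exact ⟨Sum.inl false, show 1 = x by omega⟩
  · refine ⟨Sum.inr (⟨(x - 2) / 2, by omega⟩, decide (x % 2 = 0)), ?_⟩
    show li ((x - 2) / 2, decide (x % 2 = 0)) = x
    rw [li]
    by_cases h2 : x % 2 = 0
    · simp only [h2, decide_true, if_true]
      omega
    · simp only [h2, decide_false, Bool.false_eq_true, if_false]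
      omega

section

variable {N : ℕ} {L : List (Fin 4 → Blob (N + 1))}

theorem mem_of_E1 (hL : L.length = 5 * N + 6) {u v : Vert (Blob (N + 1)) L.length}
    (h : E1 L u v) :
    (lab N u, lab N v) ∈ gadEs N 0 (L.map qd) ++ chEs N (2 * N + 4) := by
  rw [List.mem_append, mem_gadEs, mem_chEs]
  rcases u with ⟨X, s⟩ | ⟨X, s⟩ | ⟨j, i⟩ <;> rcases v with ⟨Y, t⟩ | ⟨Y, t⟩ | ⟨j', i'⟩ <;>
    simp only [E1] at h
  · right
    obtain ⟨rfl, h⟩ := h
    have hs := s.2
    have ht := t.2
    refine ⟨bi X, bi_lt X, s.val, by omega, ?_⟩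
    simp only [chE, lab, List.mem_cons, Prod.mk.injEq]
    right; right; left
    constructor <;> omega
  · right
    obtain ⟨rfl, h⟩ := h
    have hs := s.2
    have ht := t.2
    refine ⟨bi X, bi_lt X, s.val, by omega, ?_⟩
    simp only [chE, lab, List.mem_cons, Prod.mk.injEq]
    left
    constructor <;> omega
  · right
    obtain ⟨rfl, h⟩ := h
    have hs := s.2
    have ht := t.2
    refine ⟨bi X, bi_lt X, s.val, by omega, ?_⟩
    simp only [chE, lab, List.mem_cons, Prod.mk.injEq]
    right; left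
    constructor <;> omega
  · left
    obtain ⟨r, h1, h2, rfl⟩ := h
    refine ⟨j.val, by rw [List.length_map]; exact j.2, ?_⟩
    have hi := i.2
    have hr := r.2
    rw [List.getElem_map, Nat.zero_add]
    have hg : L.get j = L[j.val] := rfl
    rw [← hg]
    simp only [gadE, qd, lab, List.mem_cons, Prod.mk.injEq]
    have hcase : ∀ r : Fin 4, r = 0 ∨ r = 1 ∨ r = 2 ∨ r = 3 := by decide
    have v0 : ((0 : Fin 4) : ℕ) = 0 := rfl
    have v1 : ((1 : Fin 4) : ℕ) = 1 := rfl
    have v2 : ((2 : Fin 4) : ℕ) = 2 := rfl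
    have v3 : ((3 : Fin 4) : ℕ) = 3 := rfl
    rcases hcase r with rfl | rfl | rfl | rfl
    · rw [v0] at h1 h2
      right; right; right; left
      constructor <;> omega
    · rw [v1] at h1 h2
      right; right; right; right; left
      constructor <;> omega
    · rw [v2] at h1 h2
      right; right; right; right; right; left
      constructor <;> omega
    · rw [v3] at h1 h2
      right; right; right; right; right; right; left
      constructor <;> omega
  · left
    obtain ⟨rfl, h⟩ := h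
    refine ⟨j.val, by rw [List.length_map]; exact j.2, ?_⟩
    have hi := i.2
    have hi' := i'.2
    rw [Nat.zero_add]
    simp only [gadE, lab, List.mem_cons, Prod.mk.injEq]
    have h3 : (i.val = 0 ∧ i'.val = 1) ∨ (i.val = 1 ∧ i'.val = 2) ∨ (i.val = 0 ∧ i'.val = 2) := by
      omega
    rcases h3 with ⟨h3, h4⟩ | ⟨h3, h4⟩ | ⟨h3, h4⟩
    · left; constructor <;> omega
    · right; left; constructor <;> omega
    · right; right; left; constructor <;> omega

theorem E1_of_mem (hL : L.length = 5 * N + 6) {e : ℕ × ℕ}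
    (h : e ∈ gadEs N 0 (L.map qd) ++ chEs N (2 * N + 4)) :
    ∃ u v : Vert (Blob (N + 1)) L.length, E1 L u v ∧ lab N u = e.1 ∧ lab N v = e.2 := by
  rw [List.mem_append, mem_gadEs, mem_chEs] at h
  rcases h with ⟨m, hm, h⟩ | ⟨x, hx, s, hs, h⟩
  · rw [List.length_map] at hm
    rw [List.getElem_map, Nat.zero_add] at h
    set j : Fin L.length := ⟨m, hm⟩ with hj
    have hg : L.get j = L[m] := rfl
    rw [← hg] at h
    simp only [gadE, qd, List.mem_cons, List.not_mem_nil, or_false] at h
    rcases h with rfl | rfl | rfl | rfl | rfl | rfl | rfl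
    · exact ⟨gad j 0, gad j 1, ⟨rfl, by decide⟩, rfl, rfl⟩
    · exact ⟨gad j 1, gad j 2, ⟨rfl, by decide⟩, rfl, rfl⟩
    · exact ⟨gad j 0, gad j 2, ⟨rfl, by decide⟩, rfl, rfl⟩
    · refine ⟨gad j 0, main (L.get j 0) ⟨4 * m + 0, by omega⟩, ⟨0, rfl, rfl, rfl⟩, rfl, ?_⟩
      simp only [lab]
      omega
    · refine ⟨gad j 0, main (L.get j 1) ⟨4 * m + 1, by omega⟩, ⟨1, rfl, rfl, rfl⟩, rfl, ?_⟩
      simp only [lab]
      omega
    · refine ⟨gad j 1, main (L.get j 2) ⟨4 * m + 2, by omega⟩, ⟨2, rfl, rfl, rfl⟩, rfl, ?_⟩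
      simp only [lab]
      omega
    · refine ⟨gad j 1, main (L.get j 3) ⟨4 * m + 3, by omega⟩, ⟨3, rfl, rfl, rfl⟩, rfl, ?_⟩
      simp only [lab]
      omega
  · obtain ⟨X, rfl⟩ := bi_surj hx
    simp only [chE, List.mem_cons, List.not_mem_nil, or_false] at h
    rcases h with rfl | rfl | rfl
    · refine ⟨main X ⟨s, by omega⟩, apex X ⟨s, by omega⟩, ⟨rfl, rfl⟩, ?_, ?_⟩ <;>
        simp only [lab] <;> omega
    · refine ⟨apex X ⟨s, by omega⟩, main X ⟨s + 1, by omega⟩, ⟨rfl, rfl⟩, ?_, ?_⟩ <;>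
        simp only [lab] <;> omega
    · refine ⟨main X ⟨s, by omega⟩, main X ⟨s + 1, by omega⟩, ⟨rfl, rfl⟩, ?_, ?_⟩ <;>
        simp only [lab] <;> omega

theorem mem_iff_E1 (hL : L.length = 5 * N + 6) {u v : Vert (Blob (N + 1)) L.length} :
    (lab N u, lab N v) ∈ gadEs N 0 (L.map qd) ++ chEs N (2 * N + 4) ↔ E1 L u v := by
  constructor
  · intro h
    obtain ⟨u', v', h1, h2, h3⟩ := E1_of_mem hL h
    rw [lab_inj hL h2, lab_inj hL h3] at h1
    exact h1
  · exact mem_of_E1 hL

end

/-! ### The isomorphism -/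

theorem vle_len {N : ℕ} {φ : CNF} (hm : φ.length ≤ N) :
    (gadgets (fo N φ)).length = 5 * N + 6 := by
  rw [Core.gadgets_length, fo, List.length_append, List.length_map, List.length_replicate]
  omega

/-- The isomorphism between the graph of the gadgets and the graph of the reduction. -/
noncomputable def iso {N : ℕ} {φ : CNF} (hv : Vle N φ) (hm : φ.length ≤ N) :
    satGraph (fo N φ) ≃g graph (redN N φ) where
  toEquiv := Equiv.ofBijective _ (lab_bij (vle_len hm))
  map_rel_iff' := by
    intro u v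
    show (graph (redN N φ)).Adj ⟨lab N u, _⟩ ⟨lab N v, _⟩ ↔ (gadgetGraph (gadgets (fo N φ))).Adj u v
    rw [graph, SimpleGraph.fromRel_adj, gadgetGraph, SimpleGraph.fromRel_adj]
    have h1 := @mem_iff_E1 N (gadgets (fo N φ)) (vle_len hm) u v
    have h2 := @mem_iff_E1 N (gadgets (fo N φ)) (vle_len hm) v u
    rw [qd_gadgets N φ hv] at h1 h2
    constructor
    · rintro ⟨hne, h⟩
      have huv : u ≠ v := by
        rintro rfl
        exact hne rfl
      refine ⟨huv, (E1_symm _ huv).1 ?_⟩
      rcases h with h | h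
      · exact Or.inl (h1.1 h)
      · exact Or.inr (h2.1 h)
    · rintro ⟨huv, h⟩
      refine ⟨fun h' => huv (lab_inj (vle_len hm) (by simpa using h')), ?_⟩
      rcases (E1_symm _ huv).2 h with h | h
      · exact Or.inl (h1.2 h)
      · exact Or.inr (h2.2 h)

/-! ### Transfer -/

theorem free_iso {V V' : Type} {G : SimpleGraph V} {G' : SimpleGraph V'} (e : G ≃g G')
    (h : S2222.Free G) : S2222.Free G' := by
  intro h'
  exact h (h'.trans ⟨e.symm.toCopy⟩)

theorem cut_of_iso {V V' : Type} {G : SimpleGraph V} {G' : SimpleGraph V'} (e : G ≃g G')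
    (h : HasMatchingCut G) : HasMatchingCut G' := by
  obtain ⟨A, ⟨a, ha⟩, ⟨b, hb⟩, hA⟩ := h
  refine ⟨{v | e.symm v ∈ A}, ⟨e a, by simpa using ha⟩, ⟨e b, by simpa using hb⟩, ?_⟩
  intro v w₁ w₂ h1 h2 h3 h4
  have h5 := hA (e.symm v) (e.symm w₁) (e.symm w₂) (e.symm.map_adj_iff.2 h1)
    (e.symm.map_adj_iff.2 h2) h3 h4
  exact e.symm.injective h5

theorem degree_iso {V V' : Type} {G : SimpleGraph V} {G' : SimpleGraph V'} (e : G ≃g G') {n : ℕ}
    (h : ∀ v, (G.neighborSet v).ncard ≤ n) (v : V') : (G'.neighborSet v).ncard ≤ n := by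
  have h1 : e '' G.neighborSet (e.symm v) = G'.neighborSet v := by
    ext w
    simp only [Set.mem_image, SimpleGraph.mem_neighborSet]
    constructor
    · rintro ⟨x, hx, rfl⟩
      have := e.map_adj_iff.2 hx
      simpa using this
    · intro hw
      exact ⟨e.symm w, e.symm.map_adj_iff.2 hw, by simp⟩
  rw [← h1, Set.ncard_image_of_injective _ e.injective]
  exact h _

/-! ### Satisfiability -/

theorem sat_iff {N : ℕ} {φ : CNF} (hv : Vle N φ) : Satisfiable (fo N φ) ↔ Sat φ := by
  have hval : ∀ {v : ℕ}, v ≤ N → (Fin.ofNat (N + 1) v).val = v := by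
    intro v h
    rw [Fin.val_ofNat, Nat.mod_eq_of_lt (by omega)]
  constructor
  · rintro ⟨a, ha⟩
    refine ⟨fun v => a (Fin.ofNat (N + 1) v), ?_⟩
    intro c hc
    obtain ⟨i, hi⟩ := ha (cv N c) (by
      rw [fo, List.mem_append]
      exact Or.inl (List.mem_map.2 ⟨c, hc, rfl⟩))
    fin_cases i
    · exact Or.inl hi
    · exact Or.inr (Or.inl hi)
    · exact Or.inr (Or.inr hi)
  · rintro ⟨a, ha⟩
    refine ⟨fun v => a v.val, ?_⟩
    intro c' hc'
    rw [fo, List.mem_append] at hc'
    rcases hc' with hc' | hc'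
    · obtain ⟨c, hc, rfl⟩ := List.mem_map.1 hc'
      obtain ⟨h1, h2, h3⟩ := hv c hc
      rcases ha c hc with h | h | h
      · refine ⟨0, ?_⟩
        show a (Fin.ofNat (N + 1) c.1.1).val = c.1.2
        rw [hval h1]
        exact h
      · refine ⟨1, ?_⟩
        show a (Fin.ofNat (N + 1) c.2.1.1).val = c.2.1.2
        rw [hval h2]
        exact h
      · refine ⟨2, ?_⟩
        show a (Fin.ofNat (N + 1) c.2.2.1).val = c.2.2.2
        rw [hval h3]
        exact h
    · rw [List.eq_of_mem_replicate hc']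
      rcases h : a 0 with _ | _
      · exact ⟨1, h⟩
      · exact ⟨0, h⟩

/-- The edges of the reduction join smaller numbers to larger numbers below the number of
vertices. -/
theorem red_valid {N : ℕ} {φ : CNF} (hv : Vle N φ) (hm : φ.length ≤ N) :
    ∀ e ∈ (redN N φ).2, e.1 < e.2 ∧ e.2 < (redN N φ).1 := by
  intro e he
  rw [redN, ← qd_gadgets N φ hv] at he
  obtain ⟨u, v, h1, h2, h3⟩ := E1_of_mem (vle_len hm) he
  refine ⟨?_, ?_⟩
  · rw [← h2, ← h3]
    rcases u with ⟨X, s⟩ | ⟨X, s⟩ | ⟨j, i⟩ <;> rcases v with ⟨Y, t⟩ | ⟨Y, t⟩ | ⟨j', i'⟩ <;>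
      simp only [E1] at h1
    · obtain ⟨rfl, h1⟩ := h1
      simp only [lab]
      omega
    · obtain ⟨rfl, h1⟩ := h1
      simp only [lab]
      omega
    · obtain ⟨rfl, h1⟩ := h1
      simp only [lab]
      omega
    · have hj := j.2
      have hi := i.2
      have := vle_len hm
      simp only [lab]
      omega
    · obtain ⟨rfl, h1⟩ := h1
      simp only [lab]
      omega
  · rw [← h3]
    exact lab_lt (vle_len hm) v

end Pool.Agent.Helper40.MC
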