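import Pool.Agent.Helper40.MC.Defs
import Pool.Agent.S4H.TmMach

/-!
Machine programs whose stacks are counters, except for the input stack and the output stack.
-/

set_option autoImplicit false
set_option linter.unusedSectionVars false

namespace Pool.Agent.Helper40.MC

open Pool.Agent.S4H (Sy)
open Pool.Agent.S4H.Tm
open Pool.Agent.Helper64.Stk

/-- The values of the counters. -/
structure Cn : Type where
  c : ℕ
  q : ℕ
  u : ℕ
  s : ℕ
  b : ℕ
  h : ℕ
  g : ℕ
  d : ℕ
  p : ℕ
  a : ℕ
  e : ℕ
  f : ℕ

/-- The names of the counters. -/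
inductive CK : Type
  | c | q | u | s | b | h | g | d | p | a | e | f
  deriving DecidableEq

namespace CK

/-- The stack of a counter. -/
def key : CK → Key
  | c => .C | q => .Q | u => .U | s => .S | b => .B | h => .H | g => .G | d => .D | p => .P
  | a => .A | e => .E | f => .F

theorem key_inj {j k : CK} (h : j ≠ k) : j.key ≠ k.key := by
  cases j <;> cases k <;> first | exact absurd rfl h | decide

theorem key_ne_X (k : CK) : k.key ≠ .X := by cases k <;> decide

theorem key_ne_T (k : CK) : k.key ≠ .T := by cases k <;> decide

end CK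

namespace Cn

/-- The value of a counter. -/
def get (v : Cn) : CK → ℕ
  | .c => v.c | .q => v.q | .u => v.u | .s => v.s | .b => v.b | .h => v.h | .g => v.g
  | .d => v.d | .p => v.p | .a => v.a | .e => v.e | .f => v.f

/-- Change of a counter. -/
def set (v : Cn) : CK → ℕ → Cn
  | .c, n => {v with c := n} | .q, n => {v with q := n} | .u, n => {v with u := n}
  | .s, n => {v with s := n} | .b, n => {v with b := n} | .h, n => {v with h := n}
  | .g, n => {v with g := n} | .d, n => {v with d := n} | .p, n => {v with p := n}
  | .a, n => {v with a := n} | .e, n => {v with e := n} | .f, n => {v with f := n}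

end Cn

/-- The state with given input, output and counters. -/
def sv (i x : List Sy) (v : Cn) : St :=
  {i := i, x := x, c := un v.c, q := un v.q, u := un v.u, s := un v.s, b := un v.b, h := un v.h,
    g := un v.g, d := un v.d, p := un v.p, a := un v.a, e := un v.e, f := un v.f}

theorem un_add (m n : ℕ) : un m ++ un n = un (m + n) := by
  rw [un, un, un, List.replicate_add]

theorem un_reverse (n : ℕ) : (un n).reverse = un n := by
  rw [un, List.reverse_replicate]

theorem un_length (n : ℕ) : (un n).length = n := by
  rw [un, List.length_replicate]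

section basic

variable (i x : List Sy) (v : Cn)

theorem fn_key (k : CK) : (sv i x v).fn k.key = un (v.get k) := by cases k <;> rfl

theorem put_key (k : CK) (n : ℕ) : (sv i x v).put k.key (un n) = sv i x (v.set k n) := by
  cases k <;> rfl

theorem ru_inc (k : CK) (n : ℕ) :
    Ru (emits (un n) k.key) (sv i x v) (sv i x (v.set k (n + v.get k))) (n + 1) := by
  have h := ru_emits (un n) k.key (sv i x v)
  rw [un_reverse, un_length, fn_key, un_add, put_key] at h
  exact h

theorem ru_cp {k k' : CK} (hk : k ≠ k') :
    Ru (copy k.key k'.key) (sv i x v) (sv i x (v.set k' (v.get k + v.get k')))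
      (5 * v.get k + 2) := by
  have h := ru_copy1 (CK.key_inj hk) k.key_ne_T k'.key_ne_T (sv i x v) rfl (fn_key i x v k)
  have h1 : List.replicate (v.get k) Sy.one ++ (sv i x v).fn k'.key =
      un (v.get k + v.get k') := by rw [fn_key, ← un_add]; rfl
  rw [h1, put_key] at h
  exact h

theorem ru_cpX (k : CK) :
    Ru (copy k.key .X) (sv i x v) (sv i (un (v.get k) ++ x) v) (5 * v.get k + 2) :=
  ru_copy1 k.key_ne_X k.key_ne_T (by decide) (sv i x v) rfl (fn_key i x v k)

theorem ru_cl (k : CK) :
    Ru (clear k.key) (sv i x v) (sv i x (v.set k 0)) (2 * v.get k + 1) := by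
  have h := ru_clear k.key (sv i x v)
  rw [fn_key, un_length, show ([] : List Sy) = un 0 from rfl, put_key] at h
  exact h

theorem ru_popc (k : CK) {n : ℕ} (h : v.get k = n + 1) :
    Ru (pop k.key) (sv i x v) (sv i x (v.set k n)) 2 := by
  have h1 := ru_pop (k := k.key) (s := sv i x v) (a := .one) (l := un n)
    (by rw [fn_key, h]; rfl)
  rw [put_key] at h1
  exact h1

theorem get_set_self (k : CK) (n : ℕ) : (v.set k n).get k = n := by cases k <;> rfl

theorem set_set_self (k : CK) (n m : ℕ) : (v.set k n).set k m = v.set k m := by cases k <;> rfl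

end basic

/-- A loop which is run once for each unit of a counter, the counter going down. -/
theorem ru_for (k : CK) (body : Prog) (n B : ℕ) (i : List Sy) (I : ℕ → Cn) (xs : ℕ → List Sy)
    (hb : ∀ m < n, Ru body (sv i (xs m) ((I m).set k (n - 1 - m)))
      (sv i (xs (m + 1)) ((I (m + 1)).set k (n - 1 - m))) B) :
    Ru (drain k.key (fun _ => body)) (sv i (xs 0) ((I 0).set k n))
      (sv i (xs n) ((I n).set k 0)) (n * (B + 1) + 1) := by
  have key : ∀ r ≤ n, Ru (drain k.key (fun _ => body)) (sv i (xs (n - r)) ((I (n - r)).set k r))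
      (sv i (xs n) ((I n).set k 0)) (r * (B + 1) + 1) := by
    intro r
    induction r with
    | zero =>
      intro _
      refine (Ru.loop_nil ?_).mono (by omega)
      rw [fn_key, get_set_self]
      rfl
    | succ r ih =>
      intro hr
      have h1 := hb (n - (r + 1)) (by omega)
      have h2 := ih (by omega)
      rw [show n - 1 - (n - (r + 1)) = r by omega, show n - (r + 1) + 1 = n - r by omega] at h1
      have h3 := Ru.loop_step (k := k.key) (stop := never) (body := fun _ => body)
        (s := sv i (xs (n - (r + 1))) ((I (n - (r + 1))).set k (r + 1))) (a := .one) (l := un r)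
        (by rw [fn_key, get_set_self]; rfl) rfl (by rw [put_key, set_set_self]; exact h1) h2
      refine h3.mono ?_
      rw [Nat.add_mul]
      omega
  have := key n le_rfl
  rwa [Nat.sub_self] at this

/-! ### Printing numbers and edges -/

/-- A number, as the sum of a constant and of counters. -/
abbrev Tn := ℕ × List CK

/-- The value of a number. -/
def Cn.val (v : Cn) (t : Tn) : ℕ := t.1 + (t.2.map v.get).sum

/-- Copy counters to the output. -/
def cpsX : List CK → Prog
  | [] => .skip
  | k :: l => .seq (copy k.key .X) (cpsX l)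

/-- Print a number in unary and a separator. -/
def num (t : Tn) : Prog := .seq (emits (un t.1) .X) (.seq (cpsX t.2) (.push .X .sep))

theorem ru_cpsX (l : List CK) (i x : List Sy) (v : Cn) (M : ℕ) (hM : ∀ k, v.get k ≤ M) :
    Ru (cpsX l) (sv i x v) (sv i (un (l.map v.get).sum ++ x) v) (l.length * (5 * M + 2) + 1) := by
  induction l generalizing x with
  | nil => exact (Ru.skip _).mono (by omega)
  | cons k l ih =>
    refine ((ru_cpX i x v k).seq (ih _)).conv ?_ ?_
    · rw [List.map_cons, List.sum_cons, ← List.append_assoc, un_add, Nat.add_comm]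
    · have := hM k
      rw [List.length_cons, Nat.add_mul]
      omega

theorem ru_num (t : Tn) (i x : List Sy) (v : Cn) (M : ℕ) (hM : ∀ k, v.get k ≤ M) :
    Ru (num t) (sv i x v) (sv i (.sep :: (un (v.val t) ++ x)) v)
      (t.1 + t.2.length * (5 * M + 2) + 3) := by
  have e1 := ru_emits (un t.1) .X (sv i x v)
  rw [un_reverse, un_length] at e1
  have e2 := ru_cpsX t.2 i (un t.1 ++ x) v M hM
  have e3 := Ru.push .X .sep (sv i (un (t.2.map v.get).sum ++ (un t.1 ++ x)) v)
  refine (e1.seq (e2.seq e3)).conv ?_ (by omega)
  have : un (v.val t) ++ x = un (t.2.map v.get).sum ++ (un t.1 ++ x) := by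
    rw [← List.append_assoc, un_add, Cn.val, Nat.add_comm]
  rw [this]
  rfl

/-- Print a list of edges. -/
def edP : List (Tn × Tn) → Prog
  | [] => .skip
  | e :: l => .seq (.seq (num e.1) (num e.2)) (edP l)

/-- The number of copies and the constants in a list of edges. -/
def edC : List (Tn × Tn) → ℕ
  | [] => 0
  | e :: l => e.1.2.length + e.2.2.length + edC l

/-- The sum of the constants in a list of edges. -/
def edK : List (Tn × Tn) → ℕ
  | [] => 1
  | e :: l => e.1.1 + e.2.1 + 6 + edK l

/-- The value of a list of edges. -/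
def Cn.vals (v : Cn) (l : List (Tn × Tn)) : List (ℕ × ℕ) := l.map fun e => (v.val e.1, v.val e.2)

theorem encE_append (l l' : List (ℕ × ℕ)) : encE (l ++ l') = encE l ++ encE l' :=
  List.flatMap_append

theorem ru_edP (l : List (Tn × Tn)) (i x : List Sy) (v : Cn) (M : ℕ) (hM : ∀ k, v.get k ≤ M) :
    Ru (edP l) (sv i x v) (sv i ((encE (v.vals l)).reverse ++ x) v)
      (edC l * (5 * M + 2) + edK l) := by
  induction l generalizing x with
  | nil =>
    refine (Ru.skip _).mono ?_
    simp [edC, edK]
  | cons e l ih =>
    have e1 := ru_num e.1 i x v M hM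
    have e2 := ru_num e.2 i (.sep :: (un (v.val e.1) ++ x)) v M hM
    refine ((e1.seq e2).seq (ih _)).conv ?_ ?_
    · congr 1
      have h1 : encE (v.vals (e :: l)) = (un (v.val e.1) ++ [.sep] ++ un (v.val e.2) ++
          [.sep]) ++ encE (v.vals l) := List.flatMap_cons
      rw [h1]
      simp only [List.reverse_append, un_reverse, List.append_assoc, List.reverse_cons,
        List.reverse_nil, List.nil_append, List.cons_append]
    · simp only [edC, edK, Nat.add_mul]
      omega

end Pool.Agent.Helper40.MC
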