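import Pool.Agent.Helper40.MC.Red

/-!
The program which computes the reduction, and its running time: the gadgets.
-/

set_option autoImplicit false
set_option linter.unusedSectionVars false

namespace Pool.Agent.Helper40.MC

open Pool.Agent.S4H (Sy)
open Pool.Agent.S4H.Tm
open Pool.Agent.Helper64.Stk

/-- Bound for the counters. -/
def MB (N : ℕ) : ℕ := 400 * (N + 1) ^ 2

theorem lin_le (N : ℕ) : 100 * N + 100 ≤ MB N := by
  rw [MB]; nlinarith

theorem W_le (N : ℕ) : W N ≤ MB N := by
  have := lin_le N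
  rw [W]; omega

theorem base_le {N a : ℕ} (h : a ≤ 2 * N + 5) :
    15 * N + 18 + a * W N + 2 * (20 * N + 23) ≤ MB N := by
  have h1 : a * W N ≤ (2 * N + 5) * W N := Nat.mul_le_mul_right _ h
  have h2 : 15 * N + 18 + (2 * N + 5) * W N + 2 * (20 * N + 23) ≤ 400 * (N + 1) ^ 2 := by
    rw [W]; nlinarith
  rw [MB]
  omega

theorem mulW_le {N a : ℕ} (h : a ≤ 2 * N + 5) : a * W N ≤ MB N := by
  have := base_le h
  omega

theorem cs_le {N j B H G D : ℕ} (hj : j ≤ 5 * N + 6) (hB : B ≤ MB N) (hH : H ≤ MB N)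
    (hG : G ≤ MB N) (hD : D ≤ 2 * N + 4) (k : CK) : (cs N j B H G D).get k ≤ MB N := by
  have h1 := lin_le N
  have h2 := W_le N
  cases k <;> simp only [cs, Cn.get] <;> omega

theorem mul_bd {a b c d x y : ℕ} (h1 : a ≤ c * x) (h2 : b ≤ d * y) :
    a * b ≤ c * d * (x * y) := by
  calc a * b ≤ (c * x) * (d * y) := Nat.mul_le_mul h1 h2
    _ = c * d * (x * y) := by ring

theorem le_xy (N M : ℕ) : N + 1 ≤ (N + 1) * (M + 1) ∧ M + 1 ≤ (N + 1) * (M + 1) :=
  ⟨Nat.le_mul_of_pos_right _ (Nat.succ_pos _), Nat.le_mul_of_pos_left _ (Nat.succ_pos _)⟩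

/-! ### First gadgets -/

/-- The first part of the program: it writes the gadgets of the first kind. -/
def ph1 : Prog :=
  .seq (copy CK.u.key CK.d.key)
    (drain CK.d.key fun _ => .seq (gadP [] [.c] [.b] [.b]) (copy CK.c.key CK.b.key))

theorem ru_ph1 (i : List Sy) (N : ℕ) :
    Ru ph1 (stt i N [] 0 0 0 0)
      (stt i N ((List.range (2 * N + 4)).map f1) ((2 * N + 4) * W N) 0 0 0)
      (1000 * ((N + 1) * (MB N + 1))) := by
  have e1 : Ru (copy CK.u.key CK.d.key) (stt i N [] 0 0 0 0) (stt i N [] 0 0 0 (2 * N + 4))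
      (5 * (2 * N + 4) + 2) := ru_cp i (ot N []) (cs N 0 0 0 0 0) (k := .u) (k' := .d) (by decide)
  have e2 := ru_for .d (.seq (gadP [] [.c] [.b] [.b]) (copy CK.c.key CK.b.key)) (2 * N + 4)
    (200 * (MB N + 1) + (5 * W N + 2)) i (fun m => cs N m (m * W N) 0 0 0)
    (fun m => ot N ((List.range m).map f1)) (by
      intro m hm
      have hlen : ((List.range m).map f1).length = m := by simp
      have h1 := ru_gadP (b0 := []) (b1 := [.c]) (b2 := [.b]) (b3 := [.b]) (i := i) (N := N)
        (l := (List.range m).map f1) (B := m * W N) (H := 0) (G := 0) (D := 2 * N + 4 - 1 - m)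
        (x0 := 0) (x1 := 1) (x2 := m) (x3 := m) (MB N)
        (cs_le (by rw [hlen]; omega) (mulW_le (by omega)) (Nat.zero_le _) (Nat.zero_le _)
          (by omega))
        (by simp) (by simp [Cn.get, cs]) (by simp [Cn.get, cs]) (by simp [Cn.get, cs])
        (by simp) (by simp) (by simp) (by simp)
      have h2 : (List.range m).map f1 ++ [(0, 1, m, m)] = (List.range (m + 1)).map f1 := by
        rw [List.range_succ, List.map_append]
        rfl
      rw [h2] at h1
      have hlen' : ((List.range (m + 1)).map f1).length = m + 1 := by simp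
      simp only [stt, hlen, hlen'] at h1
      have h3 := ru_cp i (ot N ((List.range (m + 1)).map f1))
        (cs N (m + 1) (m * W N) 0 0 (2 * N + 4 - 1 - m)) (k := .c) (k' := .b) (by decide)
      refine (h1.seq h3).conv ?_ le_rfl
      have h4 : W N + m * W N = (m + 1) * W N := by ring
      show sv i _ _ = sv i _ (cs N (m + 1) ((m + 1) * W N) 0 0 (2 * N + 4 - 1 - m))
      rw [← h4]
      rfl)
  have e3 : Ru (drain CK.d.key fun _ => .seq (gadP [] [.c] [.b] [.b]) (copy CK.c.key CK.b.key))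
      (stt i N [] 0 0 0 (2 * N + 4))
      (stt i N ((List.range (2 * N + 4)).map f1) ((2 * N + 4) * W N) 0 0 0)
      ((2 * N + 4) * (200 * (MB N + 1) + (5 * W N + 2) + 1) + 1) := by
    have hz : (0 : ℕ) * W N = 0 := Nat.zero_mul _
    have hlen : ((List.range (2 * N + 4)).map f1).length = 2 * N + 4 := by simp
    simp only [stt, hlen]
    simp only [hz] at e2
    exact e2
  refine (e1.seq e3).mono ?_
  have h1 := W_le N
  have h2 : (2 * N + 4) * (200 * (MB N + 1) + (5 * W N + 2) + 1) ≤
      4 * 206 * ((N + 1) * (MB N + 1)) := mul_bd (by omega) (by omega)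
  have h3 := le_xy N (MB N)
  omega

end Pool.Agent.Helper40.MC
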