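import Pool.Agent.Helper40.MC.Prog

/-!
The program which computes the reduction, and its running time: the second kind of gadgets, the
clauses.
-/

set_option autoImplicit false
set_option linter.unusedSectionVars false

namespace Pool.Agent.Helper40.MC

open Pool.Agent.S4H (Sy)
open Pool.Agent.S4H.Tm
open Pool.Agent.Helper64.Stk

/-- The body of the loop of the second part. -/
def bd2 : Prog :=
  .seq (gadP [.b] [.h] [.c] [.c]) (.seq (gadP [.b] [.h] [] []) (.seq (copy CK.c.key CK.b.key)
    (.seq (copy CK.c.key CK.b.key) (.seq (copy CK.c.key CK.h.key) (copy CK.c.key CK.h.key)))))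

/-- The second part of the program: it writes the gadgets of the second kind. -/
def ph2 : Prog :=
  .seq (clear CK.b.key) (.seq (copy CK.c.key CK.b.key) (.seq (copy CK.c.key CK.b.key)
    (.seq (copy CK.c.key CK.h.key) (.seq (copy CK.c.key CK.h.key) (.seq (copy CK.c.key CK.h.key)
    (.seq (copy CK.q.key CK.d.key) (.seq (emits (un 1) CK.d.key)
    (.seq (drain CK.d.key fun _ => bd2) (.seq (clear CK.b.key) (clear CK.h.key))))))))))

theorem ru_ph2 (i : List Sy) (N : ℕ) (l : List Quad) (hl : l.length = 2 * N + 4) :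
    Ru ph2 (stt i N l ((2 * N + 4) * W N) 0 0 0)
      (stt i N (l ++ (List.range (N + 1)).flatMap f2) 0 0 0 0)
      (2000 * ((N + 1) * (MB N + 1))) := by
  have e1 : Ru (clear CK.b.key) (stt i N l ((2 * N + 4) * W N) 0 0 0) (stt i N l 0 0 0 0)
      (2 * ((2 * N + 4) * W N) + 1) :=
    ru_cl i (ot N l) (cs N l.length ((2 * N + 4) * W N) 0 0 0) .b
  have cpB : ∀ B H G D : ℕ, Ru (copy CK.c.key CK.b.key) (stt i N l B H G D)
      (stt i N l (W N + B) H G D) (5 * W N + 2) := fun B H G D =>
    ru_cp i (ot N l) (cs N l.length B H G D) (k := .c) (k' := .b) (by decide)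
  have cpH : ∀ B H G D : ℕ, Ru (copy CK.c.key CK.h.key) (stt i N l B H G D)
      (stt i N l B (W N + H) G D) (5 * W N + 2) := fun B H G D =>
    ru_cp i (ot N l) (cs N l.length B H G D) (k := .c) (k' := .h) (by decide)
  have e3 : Ru (copy CK.q.key CK.d.key)
      (stt i N l (W N + (W N + 0)) (W N + (W N + (W N + 0))) 0 0)
      (stt i N l (W N + (W N + 0)) (W N + (W N + (W N + 0))) 0 (N + 0))
      (5 * N + 2) :=
    ru_cp i (ot N l) (cs N l.length (W N + (W N + 0)) (W N + (W N + (W N + 0))) 0 0) (k := .q)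
      (k' := .d) (by decide)
  have e4 : Ru (emits (un 1) CK.d.key)
      (stt i N l (W N + (W N + 0)) (W N + (W N + (W N + 0))) 0 (N + 0))
      (stt i N l ((2 * 0 + 2) * W N) ((2 * 0 + 3) * W N) 0 (N + 1)) 2 := by
    refine (ru_inc i (ot N l) (cs N l.length (W N + (W N + 0)) (W N + (W N + (W N + 0))) 0 (N + 0))
      .d 1).conv ?_ le_rfl
    rw [show (2 * 0 + 2) * W N = W N + (W N + 0) by ring,
      show (2 * 0 + 3) * W N = W N + (W N + (W N + 0)) by ring,
      show N + 1 = 1 + (N + 0) by ring]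
    rfl
  have e5 := ru_for .d bd2 (N + 1) (2 * (200 * (MB N + 1)) + 4 * (5 * W N + 2)) i
    (fun m => cs N (l.length + 2 * m) ((2 * m + 2) * W N) ((2 * m + 3) * W N) 0 0)
    (fun m => ot N (l ++ (List.range m).flatMap f2)) (by
      intro m hm
      have hf : (l ++ (List.range m).flatMap f2).length = l.length + 2 * m := by
        simp [List.length_flatMap, f2, Nat.mul_comm]
      set l1 := l ++ (List.range m).flatMap f2 with hl1
      have h1 := ru_gadP (b0 := [.b]) (b1 := [.h]) (b2 := [.c]) (b3 := [.c]) (i := i) (N := N)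
        (l := l1) (B := (2 * m + 2) * W N) (H := (2 * m + 3) * W N) (G := 0) (D := N + 1 - 1 - m)
        (x0 := 2 * m + 2) (x1 := 2 * m + 3) (x2 := 1) (x3 := 1) (MB N)
        (cs_le (by rw [hf]; omega) (mulW_le (by omega)) (mulW_le (by omega)) (Nat.zero_le _)
          (by omega))
        (by simp [Cn.get, cs]) (by simp [Cn.get, cs]) (by simp [Cn.get, cs])
        (by simp [Cn.get, cs]) (by simp) (by simp) (by simp) (by simp)
      have h2 := ru_gadP (b0 := [.b]) (b1 := [.h]) (b2 := []) (b3 := []) (i := i) (N := N)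
        (l := l1 ++ [(2 * m + 2, 2 * m + 3, 1, 1)]) (B := (2 * m + 2) * W N)
        (H := (2 * m + 3) * W N) (G := 0) (D := N + 1 - 1 - m)
        (x0 := 2 * m + 2) (x1 := 2 * m + 3) (x2 := 0) (x3 := 0) (MB N)
        (cs_le (by rw [List.length_append, hf, List.length_singleton]; omega)
          (mulW_le (by omega)) (mulW_le (by omega)) (Nat.zero_le _) (by omega))
        (by simp [Cn.get, cs]) (by simp [Cn.get, cs]) (by simp)
        (by simp) (by simp) (by simp) (by simp) (by simp)
      have h3 : l1 ++ [(2 * m + 2, 2 * m + 3, 1, 1)] ++ [(2 * m + 2, 2 * m + 3, 0, 0)] =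
          l ++ (List.range (m + 1)).flatMap f2 := by
        rw [hl1, List.range_succ, List.flatMap_append]
        simp [f2]
      rw [h3] at h2
      have hf' : (l ++ (List.range (m + 1)).flatMap f2).length = l.length + 2 * (m + 1) := by
        simp [List.length_flatMap, f2, Nat.mul_comm]
      set l2 := l ++ (List.range (m + 1)).flatMap f2 with hl2
      have cpB : ∀ B H G D : ℕ, Ru (copy CK.c.key CK.b.key) (stt i N l2 B H G D)
          (stt i N l2 (W N + B) H G D) (5 * W N + 2) := fun B H G D =>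
        ru_cp i (ot N l2) (cs N l2.length B H G D) (k := .c) (k' := .b) (by decide)
      have cpH : ∀ B H G D : ℕ, Ru (copy CK.c.key CK.h.key) (stt i N l2 B H G D)
          (stt i N l2 B (W N + H) G D) (5 * W N + 2) := fun B H G D =>
        ru_cp i (ot N l2) (cs N l2.length B H G D) (k := .c) (k' := .h) (by decide)
      have h4 := h1.seq (h2.seq ((cpB _ _ _ _).seq ((cpB _ _ _ _).seq ((cpH _ _ _ _).seq
        (cpH _ _ _ _)))))
      simp only [stt, hf, hf'] at h4
      refine h4.conv ?_ (by omega)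
      show sv i _ _ = sv i _ (cs N (l.length + 2 * (m + 1)) ((2 * (m + 1) + 2) * W N)
        ((2 * (m + 1) + 3) * W N) 0 (N + 1 - 1 - m))
      rw [show (2 * (m + 1) + 2) * W N = W N + (W N + (2 * m + 2) * W N) by ring,
        show (2 * (m + 1) + 3) * W N = W N + (W N + (2 * m + 3) * W N) by ring])
  have hf : (l ++ (List.range (N + 1)).flatMap f2).length = l.length + 2 * (N + 1) := by
    simp [List.length_flatMap, f2, Nat.mul_comm]
  set l2 := l ++ (List.range (N + 1)).flatMap f2 with hl2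
  have e6 : Ru (drain CK.d.key fun _ => bd2)
      (stt i N l ((2 * 0 + 2) * W N) ((2 * 0 + 3) * W N) 0 (N + 1))
      (stt i N l2 ((2 * (N + 1) + 2) * W N) ((2 * (N + 1) + 3) * W N) 0 0)
      ((N + 1) * (2 * (200 * (MB N + 1)) + 4 * (5 * W N + 2) + 1) + 1) := by
    have h0 : l ++ (List.range 0).flatMap f2 = l := by simp
    simp only [h0] at e5
    simp only [stt, hf]
    exact e5
  have e7 : Ru (clear CK.b.key)
      (stt i N l2 ((2 * (N + 1) + 2) * W N) ((2 * (N + 1) + 3) * W N) 0 0)
      (stt i N l2 0 ((2 * (N + 1) + 3) * W N) 0 0) (2 * ((2 * (N + 1) + 2) * W N) + 1) :=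
    ru_cl i (ot N l2) (cs N l2.length ((2 * (N + 1) + 2) * W N) ((2 * (N + 1) + 3) * W N) 0 0) .b
  have e8 : Ru (clear CK.h.key)
      (stt i N l2 0 ((2 * (N + 1) + 3) * W N) 0 0)
      (stt i N l2 0 0 0 0) (2 * ((2 * (N + 1) + 3) * W N) + 1) :=
    ru_cl i (ot N l2) (cs N l2.length 0 ((2 * (N + 1) + 3) * W N) 0 0) .h
  have e9 := e1.seq ((cpB 0 0 0 0).seq ((cpB (W N + 0) 0 0 0).seq
    ((cpH (W N + (W N + 0)) 0 0 0).seq ((cpH (W N + (W N + 0)) (W N + 0) 0 0).seq
    ((cpH (W N + (W N + 0)) (W N + (W N + 0)) 0 0).seq (e3.seq (e4.seq (e6.seq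
      (e7.seq e8)))))))))
  refine e9.mono ?_
  have h1 := W_le N
  have h2 : (N + 1) * (2 * (200 * (MB N + 1)) + 4 * (5 * W N + 2) + 1) ≤
      1 * 430 * ((N + 1) * (MB N + 1)) := mul_bd (by omega) (by omega)
  have h3 := le_xy N (MB N)
  have h4 : (2 * N + 4) * W N ≤ MB N := mulW_le (by omega)
  have h5 : (2 * (N + 1) + 2) * W N ≤ MB N := mulW_le (by omega)
  have h6 : (2 * (N + 1) + 3) * W N ≤ MB N := mulW_le (by omega)
  omega

end Pool.Agent.Helper40.MC
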