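import Pool.Agent.Helper40.MC.Prog2

/-!
The program which computes the reduction, and its running time: the clauses.
-/

set_option autoImplicit false
set_option linter.unusedSectionVars false

namespace Pool.Agent.Helper40.MC

open Pool.Agent.S4H (Sy)
open Pool.Agent.S4H.Tm
open Pool.Agent.Helper64.Stk

/-- The test for a separator. -/
def isSp (a : Sy) : Bool := decide (a = .sep)

theorem get_set_ne {v : Cn} {j k : CK} (h : j ≠ k) (n : ℕ) : (v.set k n).get j = v.get j := by
  cases j <;> cases k <;> first | exact absurd rfl h | rfl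

/-- The loop which reads the unary number of a literal. -/
def ltL (k : CK) : Prog :=
  .loop .I isSp fun _ => .seq (copy CK.c.key k.key) (copy CK.c.key k.key)

theorem ru_ltL (k : CK) (hk : k ≠ .c) (i x : List Sy) (w : ℕ) (n : ℕ) : ∀ (v : Cn),
    v.get .c = w →
    Ru (ltL k) (sv (un n ++ .sep :: i) x v) (sv i x (v.set k (2 * n * w + v.get k)))
      (n * (10 * w + 5) + 1) := by
  induction n with
  | zero =>
    intro v hv
    refine (Ru.loop_stop (k := .I) (stop := isSp) (a := .sep) (l := i) rfl rfl).conv ?_ (by omega)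
    show sv i x v = _
    rw [Nat.mul_zero, Nat.zero_mul, Nat.zero_add]
    cases k <;> rfl
  | succ n ih =>
    intro v hv
    have h1 := ru_cp (un n ++ .sep :: i) x v (k := .c) (k' := k) hk.symm
    have h2 := ru_cp (un n ++ .sep :: i) x (v.set k (v.get .c + v.get k)) (k := .c) (k' := k)
      hk.symm
    rw [get_set_ne hk.symm, get_set_self, set_set_self] at h2
    have h3 := ih (v.set k (v.get .c + (v.get .c + v.get k))) (by rw [get_set_ne hk.symm, hv])
    rw [get_set_self, set_set_self] at h3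
    have h4 := Ru.loop_step (k := .I) (stop := isSp)
      (body := fun _ => .seq (copy CK.c.key k.key) (copy CK.c.key k.key))
      (s := sv (un (n + 1) ++ .sep :: i) x v) (a := .one) (l := un n ++ .sep :: i) rfl rfl
      (h1.seq h2) h3
    refine h4.conv ?_ ?_
    · congr 2
      rw [hv]
      ring
    · rw [hv]
      ring_nf
      omega

/-- Read a literal with sign `a`. -/
def litP (fl : Bool) (k : CK) (a : Sy) : Prog :=
  .seq (copy CK.c.key k.key) (.seq (copy CK.c.key k.key)
    (.seq (if decide (a = .pos) = fl then copy CK.c.key k.key else .skip) (ltL k)))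

/-- The literal or its negation. -/
def fli (fl : Bool) (y : Lit) : Lit := if fl then ng y else y

/-- The letter of a sign. -/
def sgn (s : Bool) : Sy := if s then .pos else .neg

theorem ru_litP (fl : Bool) (k : CK) (hk : k ≠ .c) (y : Lit) (i x : List Sy) (w : ℕ) (v : Cn)
    (hw : v.get .c = w) (h0 : v.get k = 0) :
    Ru (litP fl k (sgn y.2)) (sv (un y.1 ++ .sep :: i) x v)
      (sv i x (v.set k (li (fli fl y) * w))) ((y.1 + 3) * (10 * w + 5)) := by
  obtain ⟨n, s⟩ := y
  simp only
  have h1 := ru_cp (un n ++ .sep :: i) x v (k := .c) (k' := k) hk.symm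
  rw [hw, h0, Nat.add_zero] at h1
  have h2 := ru_cp (un n ++ .sep :: i) x (v.set k w) (k := .c) (k' := k) hk.symm
  rw [get_set_ne hk.symm, get_set_self, set_set_self, hw] at h2
  by_cases hs : decide (sgn s = .pos) = fl
  · have h3 := ru_cp (un n ++ .sep :: i) x (v.set k (w + w)) (k := .c) (k' := k) hk.symm
    rw [get_set_ne hk.symm, get_set_self, set_set_self, hw] at h3
    have h4 := ru_ltL k hk i x w n (v.set k (w + (w + w))) (by rw [get_set_ne hk.symm, hw])
    rw [get_set_self, set_set_self] at h4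
    have h5 := h1.seq (h2.seq (h3.seq h4))
    rw [litP, if_pos hs]
    refine h5.conv ?_ (by ring_nf; omega)
    congr 2
    have : li (fli fl (n, s)) = 2 * n + 3 := by
      cases s <;> cases fl <;> simp_all [li, fli, ng, sgn]
    rw [this]
    ring
  · have h3 := Ru.skip (sv (un n ++ .sep :: i) x (v.set k (w + w)))
    have h4 := ru_ltL k hk i x w n (v.set k (w + w)) (by rw [get_set_ne hk.symm, hw])
    rw [get_set_self, set_set_self] at h4
    have h5 := h1.seq (h2.seq (h3.seq h4))
    rw [litP, if_neg hs]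
    refine h5.conv ?_ (by ring_nf; omega)
    congr 2
    have : li (fli fl (n, s)) = 2 * n + 2 := by
      cases s <;> cases fl <;> simp_all [li, fli, ng, sgn]
    rw [this]
    ring

/-- The code of a literal without its sign. -/
theorem encLit_eq (y : Lit) (i : List Sy) : encLit y ++ i = sgn y.2 :: (un y.1 ++ .sep :: i) := by
  simp [encLit, sgn]

/-- Read a clause, the sign of its first literal being `a`, and write its gadget. -/
def clP (a : Sy) : Prog :=
  .seq (litP true .b a) (.seq (.cas .I .skip (litP true .h)) (.seq (.cas .I .skip (litP false .g))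
    (.seq (gadP [.b] [.h] [.g] [.c]) (.seq (clear CK.b.key) (.seq (clear CK.h.key)
    (.seq (clear CK.g.key) (pop CK.d.key)))))))

theorem li_le {y : Lit} {N : ℕ} (h : y.1 ≤ N) (fl : Bool) : li (fli fl y) ≤ 2 * N + 5 := by
  obtain ⟨n, s⟩ := y
  cases s <;> cases fl <;> simp [li, fli, ng] at h ⊢ <;> omega

theorem ru_clP (c : Lit × Lit × Lit) (i : List Sy) (N : ℕ) (l : List Quad) (D : ℕ)
    (hl : l.length ≤ 5 * N + 5) (hD : D + 1 ≤ 2 * N + 4) (h1 : c.1.1 ≤ N) (h2 : c.2.1.1 ≤ N)
    (h3 : c.2.2.1 ≤ N) :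
    Ru (clP (sgn c.1.2))
      (stt (un c.1.1 ++ .sep :: (encLit c.2.1 ++ (encLit c.2.2 ++ i))) N l 0 0 0 (D + 1))
      (stt i N (l ++ [f3 c]) 0 0 0 D) (1000 * ((N + 1) * (MB N + 1))) := by
  obtain ⟨x, y, z⟩ := c
  simp only at h1 h2 h3 ⊢
  have a1 := ru_litP true .b (by decide) x (encLit y ++ (encLit z ++ i)) (ot N l) (W N)
    (cs N l.length 0 0 0 (D + 1)) rfl rfl
  have a2 := ru_litP true .h (by decide) y (encLit z ++ i) (ot N l) (W N)
    (cs N l.length (li (ng x) * W N) 0 0 (D + 1)) rfl rfl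
  have a2' : Ru (.cas .I .skip (litP true .h))
      (sv (encLit y ++ (encLit z ++ i)) (ot N l) (cs N l.length (li (ng x) * W N) 0 0 (D + 1)))
      (sv (encLit z ++ i) (ot N l)
        (cs N l.length (li (ng x) * W N) (li (ng y) * W N) 0 (D + 1)))
      (1 + (y.1 + 3) * (10 * W N + 5)) := by
    refine Ru.cas_cons (k := .I) (e := .skip) (body := litP true .h) (a := sgn y.2)
      (l := un y.1 ++ .sep :: (encLit z ++ i)) ?_ a2
    show encLit y ++ (encLit z ++ i) = _
    rw [encLit_eq]
  have a3 := ru_litP false .g (by decide) z i (ot N l) (W N)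
    (cs N l.length (li (ng x) * W N) (li (ng y) * W N) 0 (D + 1)) rfl rfl
  have a3' : Ru (.cas .I .skip (litP false .g))
      (sv (encLit z ++ i) (ot N l)
        (cs N l.length (li (ng x) * W N) (li (ng y) * W N) 0 (D + 1)))
      (stt i N l (li (ng x) * W N) (li (ng y) * W N) (li z * W N) (D + 1))
      (1 + (z.1 + 3) * (10 * W N + 5)) := by
    refine Ru.cas_cons (k := .I) (e := .skip) (body := litP false .g) (a := sgn z.2)
      (l := un z.1 ++ .sep :: i) ?_ a3
    show encLit z ++ i = _
    rw [encLit_eq]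
  have m1 : li (ng x) * W N ≤ MB N := mulW_le (li_le h1 true)
  have m2 : li (ng y) * W N ≤ MB N := mulW_le (li_le h2 true)
  have m3 : li z * W N ≤ MB N := mulW_le (li_le h3 false)
  have a4 := ru_gadP (b0 := [.b]) (b1 := [.h]) (b2 := [.g]) (b3 := [.c]) (i := i) (N := N)
    (l := l) (B := li (ng x) * W N) (H := li (ng y) * W N) (G := li z * W N) (D := D + 1)
    (x0 := li (ng x)) (x1 := li (ng y)) (x2 := li z) (x3 := 1) (MB N)
    (cs_le (by omega) m1 m2 m3 hD)
    (by simp [Cn.get, cs]) (by simp [Cn.get, cs]) (by simp [Cn.get, cs]) (by simp [Cn.get, cs])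
    (by simp) (by simp) (by simp) (by simp)
  set l2 := l ++ [(li (ng x), li (ng y), li z, 1)] with hl2
  have a5 : Ru (clear CK.b.key)
      (stt i N l2 (li (ng x) * W N) (li (ng y) * W N) (li z * W N) (D + 1))
      (stt i N l2 0 (li (ng y) * W N) (li z * W N) (D + 1)) (2 * (li (ng x) * W N) + 1) :=
    ru_cl i (ot N l2)
      (cs N l2.length (li (ng x) * W N) (li (ng y) * W N) (li z * W N) (D + 1)) .b
  have a6 : Ru (clear CK.h.key)
      (stt i N l2 0 (li (ng y) * W N) (li z * W N) (D + 1))
      (stt i N l2 0 0 (li z * W N) (D + 1)) (2 * (li (ng y) * W N) + 1) :=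
    ru_cl i (ot N l2) (cs N l2.length 0 (li (ng y) * W N) (li z * W N) (D + 1)) .h
  have a7 : Ru (clear CK.g.key)
      (stt i N l2 0 0 (li z * W N) (D + 1))
      (stt i N l2 0 0 0 (D + 1)) (2 * (li z * W N) + 1) :=
    ru_cl i (ot N l2) (cs N l2.length 0 0 (li z * W N) (D + 1)) .g
  have a8 : Ru (pop CK.d.key) (stt i N l2 0 0 0 (D + 1)) (stt i N l2 0 0 0 D) 2 :=
    ru_popc i (ot N l2) (cs N l2.length 0 0 0 (D + 1)) .d rfl
  have h := a1.seq (a2'.seq (a3'.seq (a4.seq (a5.seq (a6.seq (a7.seq a8))))))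
  refine h.mono ?_
  have w1 := W_le N
  have b : ∀ n ≤ N, (n + 3) * (10 * W N + 5) ≤ 3 * 10 * ((N + 1) * (MB N + 1)) := fun n hn =>
    mul_bd (by omega) (by omega)
  have b1 := b _ h1
  have b2 := b _ h2
  have b3 := b _ h3
  have h3 := le_xy N (MB N)
  omega

/-- The third part of the program: it writes the gadgets of the clauses. -/
def ph3 : Prog := .seq (copy CK.q.key CK.d.key) (drain .I clP)

/-- All variables of the formula are at most `N`. -/
def Vle (N : ℕ) (φ : CNF) : Prop := ∀ c ∈ φ, c.1.1 ≤ N ∧ c.2.1.1 ≤ N ∧ c.2.2.1 ≤ N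

theorem ru_ph3_loop (N : ℕ) (φ : CNF) : ∀ (l : List Quad) (D : ℕ), Vle N φ →
    l.length + φ.length ≤ 5 * N + 6 → D + φ.length ≤ 2 * N + 4 →
    Ru (drain .I clP) (stt (encC φ) N l 0 0 0 (D + φ.length))
      (stt [] N (l ++ φ.map f3) 0 0 0 D)
      (φ.length * (1000 * ((N + 1) * (MB N + 1)) + 1) + 1) := by
  induction φ with
  | nil =>
    intro l D _ _ _
    refine (Ru.loop_nil rfl).conv ?_ (by omega)
    simp [encC]
  | cons c φ ih =>
    intro l D hv hl hD
    rw [List.length_cons] at hl hD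
    have hc := hv c List.mem_cons_self
    have e1 := ru_clP c (encC φ) N l (D + φ.length) (by omega) (by omega) hc.1 hc.2.1 hc.2.2
    have e2 := ih (l ++ [f3 c]) D (fun d hd => hv d (List.mem_cons_of_mem _ hd))
      (by rw [List.length_append, List.length_singleton]; omega) (by omega)
    have h1 : encC (c :: φ) = sgn c.1.2 ::
        (un c.1.1 ++ .sep :: (encLit c.2.1 ++ (encLit c.2.2 ++ encC φ))) := by
      rw [encC, List.flatMap_cons, List.append_assoc, List.append_assoc, encLit_eq]
      rfl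
    rw [h1]
    have e3 := Ru.loop_step (k := .I) (stop := never) (body := clP)
      (s := stt (sgn c.1.2 :: (un c.1.1 ++ .sep :: (encLit c.2.1 ++ (encLit c.2.2 ++ encC φ))))
        N l 0 0 0 (D + (c :: φ).length)) (a := sgn c.1.2)
      (l := un c.1.1 ++ .sep :: (encLit c.2.1 ++ (encLit c.2.2 ++ encC φ))) rfl rfl e1 e2
    refine e3.conv ?_ ?_
    · rw [List.map_cons, List.append_assoc]
      rfl
    · rw [List.length_cons, Nat.add_mul φ.length 1]
      omega

theorem ru_ph3 (N : ℕ) (φ : CNF) (l : List Quad) (hv : Vle N φ)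
    (hl : l.length + φ.length ≤ 5 * N + 6) (hφ : φ.length ≤ N) :
    Ru ph3 (stt (encC φ) N l 0 0 0 0) (stt [] N (l ++ φ.map f3) 0 0 0 (N - φ.length))
      (2000 * ((N + 1) * ((N + 1) * (MB N + 1)))) := by
  have e1 : Ru (copy CK.q.key CK.d.key) (stt (encC φ) N l 0 0 0 0)
      (stt (encC φ) N l 0 0 0 (N - φ.length + φ.length)) (5 * N + 2) := by
    rw [Nat.sub_add_cancel hφ]
    exact ru_cp (encC φ) (ot N l) (cs N l.length 0 0 0 0) (k := .q) (k' := .d) (by decide)
  have e2 := ru_ph3_loop N φ l (N - φ.length) hv hl (by omega)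
  refine (e1.seq e2).mono ?_
  have h1 := le_xy N (MB N)
  have h2 : φ.length * (1000 * ((N + 1) * (MB N + 1)) + 1) ≤
      1 * 1001 * ((N + 1) * ((N + 1) * (MB N + 1))) := mul_bd (by omega) (by omega)
  have h3 : (N + 1) * (MB N + 1) ≤ (N + 1) * ((N + 1) * (MB N + 1)) :=
    Nat.le_mul_of_pos_left _ (Nat.succ_pos _)
  omega

/-- The fourth part of the program: it writes the gadgets which are always satisfied. -/
def ph4 : Prog := drain CK.d.key fun _ => gadP [.c, .c, .c] [.c, .c] [.c, .c] [.c]

theorem ru_ph4 (N n : ℕ) (l : List Quad) (hl : l.length + n = 5 * N + 6) (hn : n ≤ N) :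
    Ru ph4 (stt [] N l 0 0 0 n) (stt [] N (l ++ List.replicate n (3, 2, 2, 1)) 0 0 0 0)
      (300 * ((N + 1) * (MB N + 1))) := by
  have e5 := ru_for .d (gadP [.c, .c, .c] [.c, .c] [.c, .c] [.c]) n (200 * (MB N + 1)) []
    (fun m => cs N (l.length + m) 0 0 0 0)
    (fun m => ot N (l ++ List.replicate m (3, 2, 2, 1))) (by
      intro m hm
      have hf : (l ++ List.replicate m ((3, 2, 2, 1) : Quad)).length = l.length + m := by simp
      set l1 := l ++ List.replicate m ((3, 2, 2, 1) : Quad) with hl1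
      have h1 := ru_gadP (b0 := [.c, .c, .c]) (b1 := [.c, .c]) (b2 := [.c, .c]) (b3 := [.c])
        (i := []) (N := N) (l := l1) (B := 0) (H := 0) (G := 0) (D := n - 1 - m)
        (x0 := 3) (x1 := 2) (x2 := 2) (x3 := 1) (MB N)
        (cs_le (by rw [hf]; omega) (Nat.zero_le _) (Nat.zero_le _) (Nat.zero_le _)
          (by omega))
        (by simp [Cn.get, cs]; ring) (by simp [Cn.get, cs]; ring) (by simp [Cn.get, cs]; ring)
        (by simp [Cn.get, cs]) (by simp) (by simp) (by simp) (by simp)
      have h3 : l1 ++ [((3, 2, 2, 1) : Quad)] = l ++ List.replicate (m + 1) (3, 2, 2, 1) := by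
        rw [hl1, List.replicate_succ', List.append_assoc]
      rw [h3] at h1
      have hf' : (l ++ List.replicate (m + 1) ((3, 2, 2, 1) : Quad)).length =
        l.length + (m + 1) := by simp
      simp only [stt, hf, hf'] at h1
      exact h1)
  have hf : (l ++ List.replicate n ((3, 2, 2, 1) : Quad)).length = l.length + n := by simp
  have h0 : l ++ List.replicate 0 ((3, 2, 2, 1) : Quad) = l := by simp
  simp only [h0] at e5
  have e6 : Ru ph4 (stt [] N l 0 0 0 n) (stt [] N (l ++ List.replicate n (3, 2, 2, 1)) 0 0 0 0)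
      (n * (200 * (MB N + 1) + 1) + 1) := by
    simp only [stt, hf]
    exact e5
  refine e6.mono ?_
  have h1 := le_xy N (MB N)
  have h2 : n * (200 * (MB N + 1) + 1) ≤ 1 * 201 * ((N + 1) * (MB N + 1)) :=
    mul_bd (by omega) (by omega)
  omega

end Pool.Agent.Helper40.MC
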