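import Pool.Agent.Helper40.MC.Mach

/-!
The reduction and the program which computes it.
-/

set_option autoImplicit false
set_option linter.unusedSectionVars false

namespace Pool.Agent.Helper40.MC

open Pool.Agent.S4H (Sy)
open Pool.Agent.S4H.Tm
open Pool.Agent.Helper64.Stk

/-! ### The reduction -/

/-- A gadget: four numbers of blobs. -/
abbrev Quad := ℕ × ℕ × ℕ × ℕ

/-- The number of vertices of a blob. -/
def W (N : ℕ) : ℕ := 40 * N + 47

/-- The number of the blob of a literal. -/
def li (l : Lit) : ℕ := 2 * l.1 + 2 + (if l.2 then 0 else 1)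

/-- The opposite literal. -/
def ng (l : Lit) : Lit := (l.1, !l.2)

/-- The edges of the gadget number `j`. -/
def gadE (N j : ℕ) (g : Quad) : List (ℕ × ℕ) :=
  [(3 * j, 3 * j + 1), (3 * j + 1, 3 * j + 2), (3 * j, 3 * j + 2),
    (3 * j, 15 * N + 18 + 8 * j + g.1 * W N),
    (3 * j, 15 * N + 18 + 8 * j + g.2.1 * W N + 2),
    (3 * j + 1, 15 * N + 18 + 8 * j + g.2.2.1 * W N + 4),
    (3 * j + 1, 15 * N + 18 + 8 * j + g.2.2.2 * W N + 6)]

/-- The edges of the gadgets. -/
def gadEs (N : ℕ) : ℕ → List Quad → List (ℕ × ℕ)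
  | _, [] => []
  | j, g :: l => gadE N j g ++ gadEs N (j + 1) l

/-- The first kind of gadgets. -/
def f1 (x : ℕ) : Quad := (0, 1, x, x)

/-- The second kind of gadgets. -/
def f2 (v : ℕ) : List Quad := [(2 * v + 2, 2 * v + 3, 1, 1), (2 * v + 2, 2 * v + 3, 0, 0)]

/-- The gadget of a clause. -/
def f3 (c : Lit × Lit × Lit) : Quad := (li (ng c.1), li (ng c.2.1), li c.2.2, 1)

/-- The list of all gadgets. -/
def gl (N : ℕ) (φ : CNF) : List Quad :=
  (List.range (2 * N + 4)).map f1 ++ (List.range (N + 1)).flatMap f2 ++ φ.map f3 ++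
    List.replicate (N - φ.length) (3, 2, 2, 1)

/-- The edges of a triangle in a blob. -/
def chE (b : ℕ) : List (ℕ × ℕ) := [(b, b + 1), (b + 1, b + 2), (b, b + 2)]

/-- The edges of a blob with first vertex `b`. -/
def chL (b n : ℕ) : List (ℕ × ℕ) := (List.range n).flatMap fun s => chE (b + 2 * s)

/-- The edges of the blobs. -/
def chEs (N n : ℕ) : List (ℕ × ℕ) :=
  (List.range n).flatMap fun x => chL (15 * N + 18 + x * W N) (20 * N + 23)

/-- The reduction with a parameter. -/
def redN (N : ℕ) (φ : CNF) : GList :=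
  (15 * N + 18 + (2 * N + 4) * W N, gadEs N 0 (gl N φ) ++ chEs N (2 * N + 4))

/-- The reduction. -/
def red (φ : CNF) : GList := redN (encC φ).length φ

theorem gadEs_append (N : ℕ) (l l' : List Quad) : ∀ j : ℕ,
    gadEs N j (l ++ l') = gadEs N j l ++ gadEs N (j + l.length) l' := by
  induction l with
  | nil => intro j; rfl
  | cons g l ih =>
    intro j
    rw [List.cons_append, gadEs, gadEs, ih, List.append_assoc, List.length_cons]
    congr 3
    omega

/-! ### Gadgets -/

/-- The counters during the first part. -/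
def cs (N j B H G D : ℕ) : Cn where
  c := W N
  q := N
  u := 2 * N + 4
  s := 20 * N + 23
  b := B
  h := H
  g := G
  d := D
  p := 0
  a := 0
  e := 3 * j
  f := 15 * N + 18 + 8 * j

/-- The output when the gadgets of the list `l` have been written. -/
def ot (N : ℕ) (l : List Quad) : List Sy := (encE (gadEs N 0 l)).reverse

/-- The state when the gadgets of the list `l` have been written. -/
def stt (i : List Sy) (N : ℕ) (l : List Quad) (B H G D : ℕ) : St :=
  sv i (ot N l) (cs N l.length B H G D)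

/-- The edges of a gadget. -/
def gadT (b0 b1 b2 b3 : List CK) : List (Tn × Tn) :=
  [((0, [.e]), (1, [.e])), ((1, [.e]), (2, [.e])), ((0, [.e]), (2, [.e])),
    ((0, [.e]), (0, .f :: b0)), ((0, [.e]), (2, .f :: b1)), ((1, [.e]), (4, .f :: b2)),
    ((1, [.e]), (6, .f :: b3))]

theorem edC_gadT {b0 b1 b2 b3 : List CK} (g0 : b0.length ≤ 3) (g1 : b1.length ≤ 3)
    (g2 : b2.length ≤ 3) (g3 : b3.length ≤ 3) : edC (gadT b0 b1 b2 b3) ≤ 26 := by
  simp only [gadT, edC, List.length_cons, List.length_nil]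
  omega

theorem edK_gadT (b0 b1 b2 b3 : List CK) : edK (gadT b0 b1 b2 b3) = 63 := rfl

/-- Write a gadget. -/
def gadP (b0 b1 b2 b3 : List CK) : Prog :=
  .seq (edP (gadT b0 b1 b2 b3)) (.seq (emits (un 3) CK.e.key) (emits (un 8) CK.f.key))

theorem ru_gadP {b0 b1 b2 b3 : List CK} {i : List Sy} {N : ℕ} {l : List Quad} {B H G D : ℕ}
    {x0 x1 x2 x3 : ℕ} (M : ℕ) (hM : ∀ k, (cs N l.length B H G D).get k ≤ M)
    (h0 : (b0.map (cs N l.length B H G D).get).sum = x0 * W N)
    (h1 : (b1.map (cs N l.length B H G D).get).sum = x1 * W N)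
    (h2 : (b2.map (cs N l.length B H G D).get).sum = x2 * W N)
    (h3 : (b3.map (cs N l.length B H G D).get).sum = x3 * W N)
    (g0 : b0.length ≤ 3) (g1 : b1.length ≤ 3) (g2 : b2.length ≤ 3) (g3 : b3.length ≤ 3) :
    Ru (gadP b0 b1 b2 b3) (stt i N l B H G D) (stt i N (l ++ [(x0, x1, x2, x3)]) B H G D)
      (200 * (M + 1)) := by
  have e1 := ru_edP (gadT b0 b1 b2 b3) i (ot N l) (cs N l.length B H G D) M hM
  have hv : (cs N l.length B H G D).vals (gadT b0 b1 b2 b3) =
      gadE N l.length (x0, x1, x2, x3) := by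
    simp only [gadT, Cn.vals, Cn.val, List.map_cons, List.map_nil, List.sum_cons, List.sum_nil,
      h0, h1, h2, h3, gadE]
    simp only [Cn.get, cs]
    congr 1
    · congr 1 <;> omega
    congr 1
    · congr 1 <;> omega
    congr 1
    · congr 1 <;> omega
    congr 1
    · congr 1 <;> omega
    congr 1
    · congr 1 <;> omega
    congr 1
    · congr 1 <;> omega
    congr 1
    congr 1 <;> omega
  have ho : (encE (gadE N l.length (x0, x1, x2, x3))).reverse ++ ot N l =
      ot N (l ++ [(x0, x1, x2, x3)]) := by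
    rw [ot, ot, gadEs_append, encE_append, List.reverse_append, Nat.zero_add, gadEs, gadEs,
      List.append_nil]
  rw [hv, ho] at e1
  have e2 := ru_inc i (ot N (l ++ [(x0, x1, x2, x3)])) (cs N l.length B H G D) .e 3
  have e3 := ru_inc i (ot N (l ++ [(x0, x1, x2, x3)]))
    ((cs N l.length B H G D).set .e (3 + (cs N l.length B H G D).get .e)) .f 8
  refine (e1.seq (e2.seq e3)).conv ?_ ?_
  · have hc : ((cs N l.length B H G D).set .e (3 + (cs N l.length B H G D).get .e)).set .f
        (8 + ((cs N l.length B H G D).set .e (3 + (cs N l.length B H G D).get .e)).get .f) =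
        cs N (l ++ [(x0, x1, x2, x3)]).length B H G D := by
      rw [List.length_append, List.length_singleton]
      simp only [Cn.get, Cn.set, cs]
      congr 1 <;> omega
    rw [hc, stt]
  · have h1 := Nat.mul_le_mul_right (5 * M + 2) (edC_gadT g0 g1 g2 g3)
    have h2 := edK_gadT b0 b1 b2 b3
    omega

end Pool.Agent.Helper40.MC
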